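import Mathlib

/-! If `∑ a n / b ^ n` is rational, an isolated coefficient of a short combination vanishes. -/

set_option autoImplicit false

open Finset
open scoped Classical

noncomputable section

namespace Pool.Agent.Lib.PhiP

theorem tails (b : ℕ) (hb : 2 ≤ b) (a : ℕ → ℕ) (ha : ∀ n, a n ≤ n)
    (hrat : ¬ Irrational (∑' n : ℕ, (a n : ℝ) / (b : ℝ) ^ n)) :
    ∃ (u : ℕ → ℝ) (q : ℕ), 0 < q ∧ ∀ N, (0 ≤ u N ∧ u N ≤ N + 2) ∧
      u (N + 1) = b * u N - a (N + 1) ∧ ∃ k : ℤ, q * u N = k := by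
  have hb' : (2 : ℝ) ≤ b := by exact_mod_cast hb
  have hs : ∀ N : ℕ, HasSum (fun i : ℕ => ((i : ℝ) + (N + 1)) / 2 ^ (i + 1)) (N + 2) := fun N => by
    have h1 := hasSum_coe_mul_geometric_of_norm_lt_one (r := (1 / 2 : ℝ)) (by norm_num)
    have h2 := (hasSum_geometric_two.mul_left ((N : ℝ) + 1)).add h1
    have h3 := h2.mul_left (1 / 2)
    rw [show (1 / 2 : ℝ) * ((N + 1) * 2 + 1 / 2 / (1 - 1 / 2) ^ 2) = N + 2 by ring] at h3
    refine h3.congr_fun fun i => ?_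
    rw [pow_succ, one_div_pow]
    field_simp
    ring
  have hle : ∀ N i : ℕ, (a (i + (N + 1)) : ℝ) / (b : ℝ) ^ (i + 1) ≤
      ((i : ℝ) + (N + 1)) / 2 ^ (i + 1) := fun N i => by
    have : (a (i + (N + 1)) : ℝ) ≤ (i : ℝ) + (N + 1) := by exact_mod_cast ha _
    gcongr
  have hsum : ∀ N : ℕ, Summable fun i : ℕ => (a (i + (N + 1)) : ℝ) / (b : ℝ) ^ (i + 1) := fun N =>
    Summable.of_nonneg_of_le (fun i => by positivity) (hle N) (hs N).summable
  set u : ℕ → ℝ := fun N => ∑' i : ℕ, (a (i + (N + 1)) : ℝ) / (b : ℝ) ^ (i + 1) with hu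
  have hrec : ∀ N, u (N + 1) = b * u N - a (N + 1) := fun N => by
    simp only [hu]
    rw [(hsum N).tsum_eq_zero_add, mul_add, ← tsum_mul_left]
    have e : ∀ i : ℕ, (b : ℝ) * ((a (i + 1 + (N + 1)) : ℝ) / (b : ℝ) ^ (i + 1 + 1)) =
        (a (i + (N + 1 + 1)) : ℝ) / (b : ℝ) ^ (i + 1) := fun i => by
      rw [show i + 1 + (N + 1) = i + (N + 1 + 1) by ring, pow_succ (b : ℝ) (i + 1)]
      field_simp
    simp only [e, zero_add, pow_one]
    field_simp
    ring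
  have h0 : ∑' n : ℕ, (a n : ℝ) / (b : ℝ) ^ n = u 0 := by
    have h1 : Summable fun n : ℕ => (a n : ℝ) / (b : ℝ) ^ n :=
      (summable_nat_add_iff 1).1 (by simpa using hsum 0)
    have h2 : a 0 = 0 := Nat.le_zero.1 (ha 0)
    rw [h1.tsum_eq_zero_add, h2]
    simp [hu]
  obtain ⟨x, hx⟩ := not_not.1 hrat
  refine ⟨u, x.den, x.den_pos, fun N => ⟨⟨tsum_nonneg fun i => by positivity,
    (hs N).tsum_eq ▸ (hsum N).tsum_le_tsum (hle N) (hs N).summable⟩, hrec N, ?_⟩⟩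
  induction N with
  | zero =>
    refine ⟨x.num, ?_⟩
    rw [← h0, ← hx]
    exact_mod_cast Rat.den_mul_eq_num x
  | succ N ih =>
    obtain ⟨k, hk⟩ := ih
    refine ⟨b * k - x.den * a (N + 1), ?_⟩
    rw [hrec]
    push_cast
    rw [← hk]
    ring

theorem iso (b : ℕ) (hb : 2 ≤ b) (a : ℕ → ℕ) (ha : ∀ n, a n ≤ n)
    (hrat : ¬ Irrational (∑' n : ℕ, (a n : ℝ) / (b : ℝ) ^ n)) :
    ∃ L₀ : ℕ, ∀ L, L₀ ≤ L → ∀ (N : Fin 3 → ℕ) (l : Fin 3 → ℤ),
      (∀ c, N c < 2 ^ (2 * L) ∧ |l c| ≤ 2 ^ (2 * L)) →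
      (∀ i ∈ Icc 1 (10 * L), i ≠ 5 * L → ∑ c, l c * a (N c + i) = 0) →
      ∑ c, l c * a (N c + 5 * L) = 0 := by
  obtain ⟨u, q, hq, hu⟩ := tails b hb a ha hrat
  refine ⟨12 * q + 4, fun L hL N l hN hc => ?_⟩
  have hb' : (2 : ℝ) ≤ b := by exact_mod_cast hb
  set W : ℕ → ℝ := fun i => ∑ c, l c * u (N c + i) with hW
  have hrec : ∀ i, W (i + 1) = b * W i - ((∑ c, l c * a (N c + (i + 1)) : ℤ) : ℝ) := fun i => by
    simp only [hW, ← add_assoc, fun c => (hu (N c + i)).2.1]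
    push_cast
    simp only [Fin.sum_univ_three]
    ring
  have hL2 : L < 2 ^ L := Nat.lt_two_pow_self
  have hB : ∀ i ≤ 10 * L, |W i| ≤ 6 * 2 ^ (4 * L) := fun i hi => by
    refine (abs_sum_le_sum_abs _ _).trans ((sum_le_card_nsmul _ _ (2 * 2 ^ (4 * L)) fun c _ => ?_).trans
      (le_of_eq (by simp; ring)))
    have h1 : |(l c : ℝ)| ≤ 2 ^ (2 * L) := by exact_mod_cast (hN c).2
    have h2 : N c + i + 2 ≤ 2 * 2 ^ (2 * L) := by
      have := (hN c).1
      have : 2 ^ (2 * L) = 2 ^ L * 2 ^ L := by rw [two_mul, pow_add]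
      nlinarith
    have h3 : |u (N c + i)| ≤ 2 * 2 ^ (2 * L) := by
      rw [abs_of_nonneg (hu _).1.1]
      refine (hu _).1.2.trans ?_
      exact_mod_cast h2
    rw [abs_mul]
    refine (mul_le_mul h1 h3 (abs_nonneg _) (by positivity)).trans (le_of_eq ?_)
    rw [show 4 * L = 2 * L + 2 * L by ring, pow_add]
    ring
  have run : ∀ s k, (∀ i, s < i → i ≤ s + k → ∑ c, l c * a (N c + i) = 0) →
      W (s + k) = b ^ k * W s := fun s k h => by
    induction k with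
    | zero => simp
    | succ k ih =>
      rw [← add_assoc, hrec, h _ (by omega) (by omega), ih fun i h1 h2 => h i h1 (by omega)]
      push_cast
      ring
  have small : ∀ (x : ℝ) (k j : ℤ) (e : ℕ), 5 * L - 1 ≤ e → 0 < j → j ≤ q → j * x = k →
      |b ^ e * x| ≤ 6 * 2 ^ (4 * L) → x = 0 := by
    intro x k j e he hj hjq hk hx
    by_contra h0
    have hj' : (0 : ℝ) < j := by exact_mod_cast hj
    have hk0 : k ≠ 0 := by
      rintro rfl
      exact h0 (by simpa [hj.ne'] using hk)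
    have h1 : (1 : ℝ) ≤ |(k : ℝ)| := by exact_mod_cast Int.one_le_abs hk0
    have h2 : (2 : ℝ) ^ (5 * L - 1) ≤ b ^ e :=
      (pow_le_pow_left₀ (by norm_num) hb' _).trans (pow_le_pow_right₀ (by linarith) he)
    have h3 : (2 : ℝ) ^ (5 * L - 1) * 2 = 2 ^ L * 2 ^ (4 * L) := by
      rw [← pow_succ, ← pow_add]
      congr 1
      omega
    have h4 : (12 : ℝ) * q < 2 ^ L := by exact_mod_cast (show 12 * q < 2 ^ L by omega)
    have h5 : (j : ℝ) ≤ q := by exact_mod_cast hjq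
    rw [← hk, abs_mul, abs_of_pos hj'] at h1
    rw [abs_mul, abs_of_nonneg (by positivity)] at hx
    have h6 : (2 : ℝ) ^ (5 * L - 1) * |x| ≤ 6 * 2 ^ (4 * L) :=
      (mul_le_mul_of_nonneg_right h2 (abs_nonneg x)).trans hx
    have h7 : 1 ≤ q * |x| := h1.trans (mul_le_mul_of_nonneg_right h5 (abs_nonneg x))
    have h8 : (0 : ℝ) < 2 ^ (4 * L) := by positivity
    have h9 : (2 : ℝ) ^ L * |x| ≤ 12 := by
      refine le_of_mul_le_mul_right ?_ h8
      nlinarith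
    have h10 : 0 < |x| := abs_pos.2 h0
    nlinarith
  have r1 := run 0 (5 * L - 1) fun i h1 h2 => hc i (mem_Icc.2 (by omega)) (by omega)
  have r2 := run (5 * L) (5 * L) fun i h1 h2 => hc i (mem_Icc.2 (by omega)) (by omega)
  have w0 : W 0 = 0 := by
    choose k hk using fun c => (hu (N c + 0)).2.2
    refine small (W 0) (∑ c, l c * k c) q (5 * L - 1) le_rfl (by exact_mod_cast hq) le_rfl ?_
      (r1 ▸ hB _ (by omega))
    simp only [hW]
    push_cast
    simp only [← hk, Fin.sum_univ_three]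
    ring
  have w1 := hrec (0 + (5 * L - 1))
  rw [r1, w0, show 0 + (5 * L - 1) + 1 = 5 * L by omega] at w1
  have w2 := small (W (5 * L)) (-∑ c, l c * a (N c + 5 * L)) 1 (5 * L) (by omega) one_pos
    (by exact_mod_cast hq) (by rw [w1]; push_cast; ring) (r2 ▸ hB _ (by omega))
  rw [w2] at w1
  have : ((∑ c, l c * a (N c + 5 * L) : ℤ) : ℝ) = 0 := by linarith
  exact_mod_cast this

end Pool.Agent.Lib.PhiP
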