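import Mathlib

/-! Sums of periodic functions, Chinese remainder means. -/

set_option autoImplicit false

open Finset
open scoped Classical

noncomputable section

namespace Pool.Agent.Lib.PhiP

theorem per_mul_add {g : ℕ → ℝ} {d : ℕ} (h : ∀ t, g (t + d) = g t) (k t : ℕ) :
    g (d * k + t) = g t := by
  induction k with
  | zero => simp
  | succ k ih => rw [show d * (k + 1) + t = d * k + t + d by ring, h, ih]

theorem per_mod {g : ℕ → ℝ} {d : ℕ} (h : ∀ t, g (t + d) = g t) (t : ℕ) : g (t % d) = g t := by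
  conv_rhs => rw [← Nat.div_add_mod t d]
  exact (per_mul_add h _ _).symm

theorem per_sum_mul {g : ℕ → ℝ} {d : ℕ} (h : ∀ t, g (t + d) = g t) (k : ℕ) :
    ∑ t ∈ range (d * k), g t = k * ∑ t ∈ range d, g t := by
  induction k with
  | zero => simp
  | succ k ih =>
    rw [mul_add, mul_one, sum_range_add, ih]
    simp only [per_mul_add h]
    push_cast
    ring

theorem per_sum {g : ℕ → ℝ} {d : ℕ} (hd : 0 < d) (h : ∀ t, g (t + d) = g t)
    (h01 : ∀ t, 0 ≤ g t ∧ g t ≤ 1) (T : ℕ) :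
    |∑ t ∈ range T, g t - T * ((∑ t ∈ range d, g t) / d)| ≤ d := by
  have hd' : (0 : ℝ) < d := by exact_mod_cast hd
  set s := ∑ t ∈ range d, g t with hs
  have hs0 : 0 ≤ s := sum_nonneg fun t _ => (h01 t).1
  have hs1 : s ≤ d := by
    simpa using sum_le_card_nsmul (range d) g 1 fun t _ => (h01 t).2
  have e : ∑ t ∈ range T, g t = (T / d : ℕ) * s + ∑ t ∈ range (T % d), g t := by
    conv_lhs => rw [← Nat.div_add_mod T d]
    rw [sum_range_add, per_sum_mul h]
    simp only [per_mul_add h]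
    rfl
  have r0 : 0 ≤ ∑ t ∈ range (T % d), g t := sum_nonneg fun t _ => (h01 t).1
  have r1 : ∑ t ∈ range (T % d), g t ≤ (T % d : ℕ) := by
    simpa using sum_le_card_nsmul (range (T % d)) g 1 fun t _ => (h01 t).2
  have r2 : ((T % d : ℕ) : ℝ) ≤ d := by exact_mod_cast (Nat.mod_lt T hd).le
  have e2 : (T : ℝ) = d * (T / d : ℕ) + (T % d : ℕ) := by
    exact_mod_cast (Nat.div_add_mod T d).symm
  have e3 : (T : ℝ) * (s / d) = (T / d : ℕ) * s + (T % d : ℕ) * (s / d) := by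
    conv_lhs => rw [e2]
    field_simp
  have r3 : 0 ≤ ((T % d : ℕ) : ℝ) * (s / d) := by positivity
  have r4 : ((T % d : ℕ) : ℝ) * (s / d) ≤ d := by
    have : s / d ≤ 1 := (div_le_one hd').2 hs1
    nlinarith [(Nat.cast_nonneg (T % d) : (0 : ℝ) ≤ _)]
  rw [e, e3, abs_le]
  constructor <;> linarith

theorem crt2 {g h : ℕ → ℝ} {m n : ℕ} (hm : 0 < m) (hn : 0 < n) (co : Nat.Coprime m n)
    (hg : ∀ t, g (t + m) = g t) (hh : ∀ t, h (t + n) = h t) :
    ∑ t ∈ range (m * n), g t * h t = (∑ t ∈ range m, g t) * ∑ t ∈ range n, h t := by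
  rw [sum_mul_sum, ← sum_product']
  refine sum_nbij' (fun t => (t % m, t % n)) (fun x => (Nat.chineseRemainder co x.1 x.2 : ℕ))
    ?_ ?_ ?_ ?_ ?_
  · intro t _
    simp only [mem_product, mem_range]
    exact ⟨Nat.mod_lt _ hm, Nat.mod_lt _ hn⟩
  · intro x _
    exact mem_range.2 (Nat.chineseRemainder_lt_mul co _ _ hm.ne' hn.ne')
  · intro t ht
    have h1 := (Nat.chineseRemainder co (t % m) (t % n)).2
    have h2 : (Nat.chineseRemainder co (t % m) (t % n) : ℕ) ≡ t [MOD m * n] :=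
      (Nat.modEq_and_modEq_iff_modEq_mul co).1
        ⟨h1.1.trans (Nat.mod_modEq _ _), h1.2.trans (Nat.mod_modEq _ _)⟩
    exact Nat.ModEq.eq_of_lt_of_lt h2 (Nat.chineseRemainder_lt_mul co _ _ hm.ne' hn.ne')
      (mem_range.1 ht)
  · intro x hx
    simp only [mem_product, mem_range] at hx
    have h1 := (Nat.chineseRemainder co x.1 x.2).2
    ext1
    · exact Eq.trans h1.1 (Nat.mod_eq_of_lt hx.1)
    · exact Eq.trans h1.2 (Nat.mod_eq_of_lt hx.2)
  · intro t _
    rw [per_mod hg, per_mod hh]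

theorem crt {ι : Type} (D : Finset ι) (n : ι → ℕ) (hn : ∀ i ∈ D, 0 < n i)
    (co : ∀ i ∈ D, ∀ j ∈ D, i ≠ j → Nat.Coprime (n i) (n j)) (g : ι → ℕ → ℝ)
    (hg : ∀ i ∈ D, ∀ t, g i (t + n i) = g i t) :
    (∀ t, ∏ i ∈ D, g i (t + ∏ j ∈ D, n j) = ∏ i ∈ D, g i t) ∧
      ∑ t ∈ range (∏ i ∈ D, n i), ∏ i ∈ D, g i t = ∏ i ∈ D, ∑ t ∈ range (n i), g i t := by
  refine ⟨fun t => prod_congr rfl fun i hi => ?_, ?_⟩
  · obtain ⟨k, hk⟩ := dvd_prod_of_mem n hi
    rw [hk, add_comm, per_mul_add (hg i hi)]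
  induction D using Finset.induction_on with
  | empty => simp
  | insert a D ha ih =>
    simp only [prod_insert ha]
    rw [← ih (fun i hi => hn i (mem_insert_of_mem hi))
      (fun i hi j hj => co i (mem_insert_of_mem hi) j (mem_insert_of_mem hj))
      (fun i hi => hg i (mem_insert_of_mem hi))]
    refine crt2 (hn a (mem_insert_self _ _)) (prod_pos fun i hi => hn i (mem_insert_of_mem hi))
      (Nat.Coprime.prod_right fun i hi => co a (mem_insert_self _ _) i (mem_insert_of_mem hi)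
        fun e => ha (e ▸ hi)) (hg a (mem_insert_self _ _)) fun t => prod_congr rfl fun i hi => ?_
    obtain ⟨k, hk⟩ := dvd_prod_of_mem n hi
    rw [hk, add_comm, per_mul_add (hg i (mem_insert_of_mem hi))]

theorem crt_mean {ι : Type} (D : Finset ι) (n : ι → ℕ) (hn : ∀ i ∈ D, 0 < n i)
    (co : ∀ i ∈ D, ∀ j ∈ D, i ≠ j → Nat.Coprime (n i) (n j)) (g : ι → ℕ → ℝ)
    (hg : ∀ i ∈ D, ∀ t, g i (t + n i) = g i t) (h01 : ∀ i ∈ D, ∀ t, 0 ≤ g i t ∧ g i t ≤ 1)
    (T : ℕ) :
    |∑ t ∈ range T, ∏ i ∈ D, g i t - T * ∏ i ∈ D, ((∑ t ∈ range (n i), g i t) / n i)| ≤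
      ∏ i ∈ D, (n i : ℝ) := by
  obtain ⟨h1, h2⟩ := crt D n hn co g hg
  have := per_sum (g := fun t => ∏ i ∈ D, g i t) (prod_pos hn) h1
    (fun t => ⟨prod_nonneg fun i hi => (h01 i hi t).1,
      prod_le_one (fun i hi => (h01 i hi t).1) fun i hi => (h01 i hi t).2⟩) T
  rw [h2] at this
  push_cast at this
  rwa [prod_div_distrib]

theorem lin_sum {p Q : ℕ} (hp : 0 < p) (co : Nat.Coprime p Q) (r : ℕ) (F : ℕ → ℝ) :
    ∑ t ∈ range p, F ((r + Q * t) % p) = ∑ u ∈ range p, F u := by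
  have hinj : Set.InjOn (fun t => (r + Q * t) % p) (range p : Set ℕ) := by
    intro s hs t ht e
    have h1 : Q * s ≡ Q * t [MOD p] := Nat.ModEq.add_left_cancel' r e
    exact Nat.ModEq.eq_of_lt_of_lt (Nat.ModEq.cancel_left_of_coprime co h1)
      (mem_range.1 (mem_coe.1 hs)) (mem_range.1 (mem_coe.1 ht))
  have him : (range p).image (fun t => (r + Q * t) % p) = range p := by
    refine eq_of_subset_of_card_le (fun u hu => ?_) (by rw [card_image_of_injOn hinj])
    obtain ⟨t, -, rfl⟩ := mem_image.1 hu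
    exact mem_range.2 (Nat.mod_lt _ hp)
  conv_rhs => rw [← him, sum_image hinj]

/-- Euler product for the count of residues free of the primes of `P` that divide `n`. -/
theorem card_eq (P : Set ℕ) (hP : ∀ p ∈ P, p.Prime) {n : ℕ} (hn : n ≠ 0) :
    (((range n).filter fun m => ∀ p ∈ P, p ∣ n → ¬ p ∣ m).card : ℝ) =
      n * ∏ p ∈ n.primeFactors.filter (· ∈ P), (1 - 1 / (p : ℝ)) := by
  set D := n.primeFactors.filter (· ∈ P) with hD
  have hpr : ∀ p ∈ D, p.Prime := fun p hp => hP p (mem_filter.1 hp).2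
  obtain ⟨k, hk⟩ : ∏ p ∈ D, p ∣ n :=
    (prod_dvd_prod_of_subset _ _ _ (filter_subset _ _)).trans (Nat.prod_primeFactors_dvd n)
  obtain ⟨h1, h2⟩ := crt D (fun p => p) (fun p hp => (hpr p hp).pos)
    (fun p hp q hq h => (Nat.coprime_primes (hpr p hp) (hpr q hq)).2 h)
    (fun p t => if p ∣ t then 0 else 1) (fun p _ t => by simp)
  have e1 : (((range n).filter fun m => ∀ p ∈ P, p ∣ n → ¬ p ∣ m).card : ℝ) =
      ∑ t ∈ range n, ∏ p ∈ D, (if p ∣ t then (0 : ℝ) else 1) := by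
    rw [card_filter]
    push_cast
    refine sum_congr rfl fun t _ => ?_
    split_ifs with h
    · exact (prod_eq_one fun p hp => if_neg (h p (mem_filter.1 hp).2
        (Nat.dvd_of_mem_primeFactors (mem_filter.1 hp).1))).symm
    · push Not at h
      obtain ⟨p, h3, h4, h5⟩ := h
      symm
      exact prod_eq_zero (i := p) (mem_filter.2 ⟨Nat.mem_primeFactors.2 ⟨hP p h3, h4, hn⟩, h3⟩)
        (if_pos h5)
  have e2 : ∀ p ∈ D, ∑ t ∈ range p, (if p ∣ t then (0 : ℝ) else 1) = p * (1 - 1 / (p : ℝ)) := by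
    intro p hp
    have h0 := (hpr p hp).pos
    obtain ⟨s, rfl⟩ : ∃ s, p = s + 1 := ⟨p - 1, by omega⟩
    rw [sum_range_succ', sum_congr rfl fun t ht => if_neg
      (Nat.not_dvd_of_pos_of_lt (Nat.succ_pos t) (by simpa using ht))]
    have : ((s + 1 : ℕ) : ℝ) ≠ 0 := by positivity
    simp only [sum_const, card_range, nsmul_eq_mul, mul_one, dvd_zero, if_true, add_zero]
    field_simp
    push_cast
    ring
  rw [e1]
  conv_lhs => rw [hk]
  rw [per_sum_mul h1, h2, prod_congr rfl e2, prod_mul_distrib]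
  conv_rhs => rw [hk]
  push_cast
  ring

end Pool.Agent.Lib.PhiP
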