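import Pool.Agent.Lib.PhiP.Sieve
import Pool.Agent.Lib.PhiP.Per

/-! Divisibility patterns of windows `N+1, ..., N+H` by medium primes. -/

set_option autoImplicit false

open Finset
open scoped Classical

noncomputable section

namespace Pool.Agent.Lib.PhiP

/-- The position in `1..H` at which `p` divides `N + i`, or `0`. -/
def pat (H p N : ℕ) : ℕ := if p - N % p ≤ H then p - N % p else 0

theorem pat_le (H p N : ℕ) : pat H p N ≤ H := by
  unfold pat
  split_ifs <;> omega

theorem pat_mod (H p N : ℕ) : pat H p (N % p) = pat H p N := by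
  simp [pat]

theorem dvd_iff_pat {H p N i : ℕ} (hp : H < p) (h1 : 1 ≤ i) (h2 : i ≤ H) :
    p ∣ N + i ↔ pat H p N = i := by
  have hu : N % p < p := Nat.mod_lt _ (by omega)
  have e : p ∣ N + i ↔ p ∣ N % p + i := by
    rw [Nat.dvd_iff_mod_eq_zero, Nat.dvd_iff_mod_eq_zero, Nat.mod_add_mod]
  rw [e, pat]
  constructor
  · rintro ⟨k, hk⟩
    have : k = 1 := by
      rcases k with _ | _ | k
      · omega
      · rfl
      · nlinarith
    subst this
    split_ifs <;> omega
  · intro h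
    refine ⟨1, ?_⟩
    split_ifs at h <;> omega

theorem sum_pat_eq {H p i : ℕ} (hp : H < p) (h1 : 1 ≤ i) (h2 : i ≤ H) :
    ∑ u ∈ range p, (if pat H p u = i then (1 : ℝ) else 0) = 1 := by
  rw [sum_eq_single (p - i)]
  · rw [if_pos]
    rw [pat, Nat.mod_eq_of_lt (by omega)]
    split_ifs <;> omega
  · intro u hu hne
    rw [if_neg]
    rw [pat, Nat.mod_eq_of_lt (mem_range.1 hu)]
    have := mem_range.1 hu
    split_ifs <;> omega
  · intro h
    exact absurd (mem_range.2 (by omega)) h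

theorem sum_pat_ne {H p : ℕ} (hp : H < p) :
    ∑ u ∈ range p, (if pat H p u = 0 then (0 : ℝ) else 1) = H := by
  have e : ∑ u ∈ range p, (if pat H p u = 0 then (0 : ℝ) else 1) =
      ∑ u ∈ range p, (if u ∈ Ico (p - H) p then (1 : ℝ) else 0) := by
    refine sum_congr rfl fun u hu => ?_
    have := mem_range.1 hu
    rw [pat, Nat.mod_eq_of_lt this]
    simp only [mem_Ico]
    split_ifs <;> first | rfl | omega
  rw [e, ← sum_filter, filter_mem_eq_inter, inter_eq_right.2 fun u hu => mem_range.2 (mem_Ico.1 hu).2]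
  simp only [sum_const, Nat.card_Ico, nsmul_eq_mul, mul_one]
  congr 1
  omega

/-- Local probability of a pattern value. -/
def wt (H p i : ℕ) : ℝ := if i = 0 then 1 - (H : ℝ) / p else 1 / p

theorem sum_wt (H p : ℕ) : ∑ i ∈ range (H + 1), wt H p i = 1 := by
  rw [sum_range_succ']
  simp [wt]
  ring

theorem wt_nonneg {H p : ℕ} (hp : H < p) (i : ℕ) : 0 ≤ wt H p i := by
  unfold wt
  split_ifs
  · have : (H : ℝ) < p := by exact_mod_cast hp
    rw [sub_nonneg, div_le_one (by linarith [(Nat.cast_nonneg H : (0 : ℝ) ≤ H)])]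
    exact this.le
  · positivity

theorem card_sets_le (Q : Finset ℕ) (hQ : ∀ p ∈ Q, p.Prime) (I : Finset Q) {Z : ℝ} (hZ : 0 ≤ Z) :
    ((I.powerset.filter fun S : Finset Q => ∏ i ∈ S, ((i : ℕ) : ℝ) ≤ Z).card : ℝ) ≤ Z := by
  refine le_trans ?_ (Nat.floor_le hZ)
  have : (I.powerset.filter fun S : Finset Q => ∏ i ∈ S, ((i : ℕ) : ℝ) ≤ Z).card ≤ (Icc 1 ⌊Z⌋₊).card := by
    refine card_le_card_of_injOn (fun S : Finset Q => ∏ i ∈ S, (i : ℕ)) (fun S hS => ?_) fun S _ S' _ e => ?_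
    · have h := (mem_filter.1 (mem_coe.1 hS)).2
      refine mem_coe.2 (mem_Icc.2 ⟨prod_pos fun (i : Q) _ => (hQ i i.2).pos, Nat.le_floor ?_⟩)
      push_cast
      exact h
    · have f : ∀ S : Finset Q, (∏ i ∈ S, (i : ℕ)).primeFactors = S.map (Function.Embedding.subtype _) := by
        intro S
        rw [← Nat.primeFactors_prod (s := S.map (Function.Embedding.subtype _)), prod_map]
        · rfl
        · intro p hp
          obtain ⟨i, -, rfl⟩ := mem_map.1 hp
          exact hQ i i.2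
      have := f S
      rw [show (∏ i ∈ S, (i : ℕ)) = ∏ i ∈ S', (i : ℕ) from e, f S'] at this
      exact (map_injective _ this).symm
  simpa using this

theorem upper (Q : Finset ℕ) (H q T r : ℕ) (z Λ g : ℝ) (hH : 1 ≤ H) (hz : 2 ≤ z)
    (hQ : ∀ p ∈ Q, p.Prime ∧ 2 * H < p ∧ (p : ℝ) ≤ z ∧ ¬ p ∣ q)
    (hΛ : ∑ p ∈ Q, (H : ℝ) / p * Real.log p ≤ Λ)
    (hT : 20 * z ^ 45 * Real.exp (2 * g + 26 * Λ) ≤ T)
    (ω : Q → ℕ) (hω : ∀ p, ω p ≤ H)
    (hg : ∑ p : Q, (if ω p = 0 then 0 else Real.log (p : ℕ)) ≤ g) :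
    (((range T).filter fun t => (fun p : Q => pat H p (r + q * t)) = ω).card : ℝ) ≤
      6 / 5 * (T * ∏ p : Q, wt H p (ω p)) := by
  set I : Finset Q := univ.filter fun p => ω p = 0 with hI
  set U : Finset Q := univ.filter fun p => ¬ ω p = 0 with hU
  have hpr : ∀ p : Q, (p : ℕ).Prime := fun p => (hQ p p.2).1
  have hp3 : ∀ p : Q, (3 : ℝ) ≤ (p : ℕ) := fun p => by
    have := (hQ p p.2).2.1
    exact_mod_cast (show 3 ≤ (p : ℕ) by omega)
  have hHp : ∀ p : Q, H < p := fun p => by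
    have := (hQ p p.2).2.1
    omega
  have hco : ∀ p : Q, Nat.Coprime p q := fun p => (hpr p).coprime_iff_not_dvd.2 (hQ p p.2).2.2.2
  have hlog : ∀ p : Q, 1 ≤ Real.log (p : ℕ) := fun p => by
    rw [Real.le_log_iff_exp_le (by linarith [hp3 p])]
    linarith [Real.exp_one_lt_d9, hp3 p]
  have hhalf : ∀ p : Q, 0 ≤ (H : ℝ) / (p : ℕ) ∧ (H : ℝ) / (p : ℕ) ≤ 1 / 2 := fun p => by
    refine ⟨by positivity, ?_⟩
    rw [div_le_iff₀ (by linarith [hp3 p])]
    have : ((2 * H : ℕ) : ℝ) < (p : ℕ) := by exact_mod_cast (hQ p p.2).2.1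
    push_cast at this
    linarith
  have hΛ' : ∑ p ∈ I, (H : ℝ) / (p : ℕ) * Real.log (p : ℕ) ≤ Λ := by
    refine le_trans (sum_le_sum_of_subset_of_nonneg (subset_univ _) fun p _ _ =>
      mul_nonneg (hhalf p).1 (by linarith [hlog p])) (le_trans (le_of_eq ?_) hΛ)
    exact sum_coe_sort Q fun p => (H : ℝ) / p * Real.log p
  have hΛ0 : 0 ≤ Λ := (sum_nonneg fun p _ => mul_nonneg (hhalf p).1 (by linarith [hlog p])).trans hΛ'
  set G : ℝ := ∏ p ∈ U, ((p : ℕ) : ℝ) with hG
  have hG0 : 0 < G := prod_pos fun p _ => by linarith [hp3 p]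
  have hGg : G ≤ Real.exp g := by
    rw [← Real.exp_log hG0, Real.exp_le_exp, hG, Real.log_prod fun p _ => by linarith [hp3 p]]
    refine le_trans (le_of_eq ?_) hg
    rw [hU, sum_filter]
    exact sum_congr rfl fun p _ => by split_ifs <;> rfl
  set Z : ℝ := Real.exp (12 * Λ) * z ^ 22 with hZ
  have hZ0 : 0 ≤ Z := by positivity
  set gl : Q → ℕ → ℝ := fun p t => if ω p = 0 then (if pat H p (r + q * t) = 0 then 0 else 1)
    else (if pat H p (r + q * t) = ω p then 1 else 0) with hgl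
  have key := FL2 I (fun p : Q => ((p : ℕ) : ℝ)) (fun p : Q => (H : ℝ) / (p : ℕ)) z Λ (range T)
    (fun t => ∏ p ∈ U, gl p t) gl (T * ∏ p ∈ U, (1 / ((p : ℕ) : ℝ))) (Z * (G * Z)) hz
    (fun p _ => ⟨by linarith [hp3 p], (hQ p p.2).2.2.1, hhalf p⟩) hΛ' ?_ ?_ (by positivity) ?_
  rotate_left
  · intro t _
    refine prod_nonneg fun p _ => ?_
    simp only [hgl]
    split_ifs <;> norm_num
  · intro p _ t _
    simp only [hgl]
    split_ifs <;> norm_num
  · refine (sum_le_card_nsmul _ _ (G * Z) fun S hS => ?_).trans ?_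
    · obtain ⟨h1, h2⟩ := mem_filter.1 hS
      have hSI := mem_powerset.1 h1
      have hd : Disjoint U S := disjoint_left.2 fun p h3 h4 =>
        (mem_filter.1 h3).2 (mem_filter.1 (hSI h4)).2
      have h3 := crt_mean (U ∪ S) (fun p : Q => (p : ℕ)) (fun p _ => (hpr p).pos)
        (fun p _ p' _ h => (Nat.coprime_primes (hpr p) (hpr p')).2 fun e => h (Subtype.ext e)) gl
        (fun p _ t => by
          simp only [hgl]
          rw [← pat_mod H p (r + q * (t + p)), ← pat_mod H p (r + q * t), mul_add, ← add_assoc,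
            Nat.add_mul_mod_self_right])
        (fun p _ t => by
          simp only [hgl]
          split_ifs <;> norm_num) T
      simp only [prod_union hd] at h3
      have e1 : ∏ p ∈ U, ((∑ t ∈ range (p : ℕ), gl p t) / (p : ℕ)) = ∏ p ∈ U, (1 / ((p : ℕ) : ℝ)) := by
        refine prod_congr rfl fun p hp => ?_
        have h4 := (mem_filter.1 hp).2
        simp only [hgl, if_neg h4]
        have h5 := lin_sum (hpr p).pos (hco p) r fun u => if pat H p u = ω p then (1 : ℝ) else 0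
        simp only [pat_mod] at h5
        rw [h5, sum_pat_eq (hHp p) (Nat.one_le_iff_ne_zero.2 h4) (hω p)]
      have e2 : ∏ p ∈ S, ((∑ t ∈ range (p : ℕ), gl p t) / (p : ℕ)) = ∏ p ∈ S, ((H : ℝ) / (p : ℕ)) := by
        refine prod_congr rfl fun p hp => ?_
        have h4 := (mem_filter.1 (hSI hp)).2
        simp only [hgl, if_pos h4]
        have h5 := lin_sum (hpr p).pos (hco p) r fun u => if pat H p u = 0 then (0 : ℝ) else 1
        simp only [pat_mod] at h5
        rw [h5, sum_pat_ne (hHp p)]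
      rw [e1, e2, ← mul_assoc] at h3
      exact h3.trans (mul_le_mul_of_nonneg_left h2 hG0.le)
    · rw [nsmul_eq_mul]
      exact mul_le_mul_of_nonneg_right (card_sets_le Q (fun p hp => (hQ p hp).1) I hZ0)
        (by positivity)
  have e1 : (((range T).filter fun t => (fun p : Q => pat H p (r + q * t)) = ω).card : ℝ) =
      ∑ t ∈ range T, (∏ p ∈ U, gl p t) * ∏ p ∈ I, (1 - gl p t) := by
    rw [card_filter]
    push_cast
    refine sum_congr rfl fun t _ => ?_
    split_ifs with h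
    · have h' : ∀ p : Q, pat H p (r + q * t) = ω p := fun p => congrFun h p
      rw [prod_eq_one, prod_eq_one, mul_one]
      · intro p hp
        have h4 := (mem_filter.1 hp).2
        simp [hgl, h', h4]
      · intro p hp
        have h4 := (mem_filter.1 hp).2
        simp [hgl, h', h4]
    · obtain ⟨p, hp⟩ : ∃ p : Q, pat H p (r + q * t) ≠ ω p := by
        by_contra h'
        push Not at h'
        exact h (funext h')
      by_cases h4 : ω p = 0
      · rw [prod_eq_zero (s := I) (i := p) (mem_filter.2 ⟨mem_univ _, h4⟩), mul_zero]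
        rw [h4] at hp
        simp [hgl, hp, h4]
      · rw [prod_eq_zero (s := U) (i := p) (mem_filter.2 ⟨mem_univ _, h4⟩), zero_mul]
        simp [hgl, hp, h4]
  have e2 : ∏ p : Q, wt H p (ω p) =
      (∏ p ∈ U, (1 / ((p : ℕ) : ℝ))) * ∏ p ∈ I, (1 - (H : ℝ) / (p : ℕ)) := by
    rw [← prod_filter_mul_prod_filter_not univ (fun p : Q => ω p = 0), mul_comm]
    congr 1
    · exact prod_congr rfl fun p hp => if_neg (mem_filter.1 hp).2
    · exact prod_congr rfl fun p hp => if_pos (mem_filter.1 hp).2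
  have l1 : Real.exp (-2 * Λ) ≤ ∏ p ∈ I, (1 - (H : ℝ) / (p : ℕ)) := by
    refine le_trans (Real.exp_le_exp.2 ?_) (exp_le_prod I _ fun p _ => hhalf p)
    have : ∑ p ∈ I, (H : ℝ) / (p : ℕ) ≤ ∑ p ∈ I, (H : ℝ) / (p : ℕ) * Real.log (p : ℕ) :=
      sum_le_sum fun p _ => le_mul_of_one_le_right (hhalf p).1 (hlog p)
    linarith
  have l2 : Real.exp (-g) ≤ ∏ p ∈ U, (1 / ((p : ℕ) : ℝ)) := by
    rw [prod_div_distrib, prod_const_one, Real.exp_neg, ← one_div]
    exact one_div_le_one_div_of_le hG0 hGg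
  have l3 : 2 * z * (Z * (G * Z)) ≤ 1 / 10 * (T * (Real.exp (-g) * Real.exp (-2 * Λ))) := by
    have h1 : 2 * z * (Z * (G * Z)) ≤ 2 * z * (Z * (Real.exp g * Z)) := by gcongr
    refine h1.trans (le_trans (le_of_eq ?_) (mul_le_mul_of_nonneg_left
      (mul_le_mul_of_nonneg_right hT (by positivity)) (by norm_num)))
    have e3 : Real.exp (2 * g + 26 * Λ) * (Real.exp (-g) * Real.exp (-2 * Λ)) =
        Real.exp g * (Real.exp (12 * Λ) * Real.exp (12 * Λ)) := by
      simp only [← Real.exp_add]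
      congr 1
      ring
    rw [mul_assoc (20 * z ^ 45), e3, hZ]
    ring
  have l4 : Real.exp (-g) * Real.exp (-2 * Λ) ≤
      (∏ p ∈ U, (1 / ((p : ℕ) : ℝ))) * ∏ p ∈ I, (1 - (H : ℝ) / (p : ℕ)) :=
    mul_le_mul l2 l1 (by positivity) (by positivity)
  have l5 := mul_le_mul_of_nonneg_left l4 (Nat.cast_nonneg (α := ℝ) T)
  have l6 : 0 ≤ (T : ℝ) * (Real.exp (-g) * Real.exp (-2 * Λ)) := by positivity
  rw [e1, e2]
  have := (abs_le.1 key).2
  rw [mul_assoc (T : ℝ)] at this
  linarith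

end Pool.Agent.Lib.PhiP
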