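import Mathlib

/-! Brun-Hooley sieve in growing dimension (the core part is copied from Lib.LQ.B2). -/

set_option autoImplicit false

open Finset
open scoped Classical

noncomputable section

namespace Pool.Agent.Lib.PhiP

variable {ι : Type}

/-- Multilinear forms with bounded coefficients supported on sets of small norm. -/
def Good (N : ι → ℝ) (I : Finset ι) (Z : ℝ) (F : (ι → ℝ) → ℝ) : Prop :=
  ∃ c : Finset ι → ℝ, (∀ S, |c S| ≤ 1) ∧ (∀ S ⊆ I, c S ≠ 0 → ∏ i ∈ S, N i ≤ Z) ∧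
    ∀ x, F x = ∑ S ∈ I.powerset, c S * ∏ i ∈ S, x i

theorem Good.mul {N : ι → ℝ} {I I' : Finset ι} {Z Z' : ℝ} {F F' : (ι → ℝ) → ℝ}
    (h : Good N I Z F) (h' : Good N I' Z' F') (hd : Disjoint I I') (hN : ∀ i ∈ I, 0 ≤ N i)
    (hN' : ∀ i ∈ I', 0 ≤ N i) : Good N (I ∪ I') (Z * Z') fun x => F x * F' x := by
  obtain ⟨c, c1, c2, c3⟩ := h
  obtain ⟨d, d1, d2, d3⟩ := h'
  have hdis : ∀ S : Finset ι, Disjoint (S ∩ I) (S ∩ I') := fun S =>
    hd.mono inter_subset_right inter_subset_right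
  have hsp : ∀ S ⊆ I ∪ I', ∀ x : ι → ℝ,
      ∏ i ∈ S, x i = (∏ i ∈ S ∩ I, x i) * ∏ i ∈ S ∩ I', x i := fun S hS x => by
    rw [← prod_union (hdis S), ← inter_union_distrib_left, inter_eq_left.2 hS]
  refine ⟨fun S => c (S ∩ I) * d (S ∩ I'), fun S => ?_, fun S hS h0 => ?_, fun x => ?_⟩
  · rw [abs_mul]
    exact mul_le_one₀ (c1 _) (abs_nonneg _) (d1 _)
  · have a1 := c2 _ inter_subset_right (left_ne_zero_of_mul h0)
    have a2 := d2 _ inter_subset_right (right_ne_zero_of_mul h0)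
    have p1 : 0 ≤ ∏ i ∈ S ∩ I, N i := prod_nonneg fun i hi => hN i (mem_inter.1 hi).2
    have p2 : 0 ≤ ∏ i ∈ S ∩ I', N i := prod_nonneg fun i hi => hN' i (mem_inter.1 hi).2
    rw [hsp S hS]
    exact mul_le_mul a1 a2 p2 (p1.trans a1)
  · beta_reduce
    rw [c3, d3, sum_mul_sum, ← sum_product']
    symm
    refine sum_nbij' (fun S => (S ∩ I, S ∩ I')) (fun q => q.1 ∪ q.2) ?_ ?_ ?_ ?_ ?_
    · intro S _
      simp
    · intro q hq
      simp only [mem_product, mem_powerset] at hq ⊢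
      exact union_subset_union hq.1 hq.2
    · intro S hS
      rw [← inter_union_distrib_left, inter_eq_left.2 (mem_powerset.1 hS)]
    · intro q hq
      simp only [mem_product, mem_powerset] at hq
      have e1 : q.2 ∩ I = ∅ := disjoint_iff_inter_eq_empty.1 (hd.symm.mono_left hq.2)
      have e2 : q.1 ∩ I' = ∅ := disjoint_iff_inter_eq_empty.1 (hd.mono_left hq.1)
      ext1
      · simp only [union_inter_distrib_right, e1, union_empty, inter_eq_left.2 hq.1]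
      · simp only [union_inter_distrib_right, e2, empty_union, inter_eq_left.2 hq.2]
    · intro S hS
      rw [hsp S (mem_powerset.1 hS)]
      ring

theorem Good.prod {N : ι → ℝ} (I : ℕ → Finset ι) (Z : ℕ → ℝ) (F : ℕ → (ι → ℝ) → ℝ)
    (h : ∀ j, Good N (I j) (Z j) (F j)) (hd : ∀ i j, i ≠ j → Disjoint (I i) (I j))
    (hN : ∀ j, ∀ i ∈ I j, 0 ≤ N i) (J : Finset ℕ) :
    Good N (J.biUnion I) (∏ j ∈ J, Z j) fun x => ∏ j ∈ J, F j x := by
  induction J using Finset.induction_on with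
  | empty => exact ⟨fun _ => 1, by simp, by simp, by simp⟩
  | insert a J ha ih =>
    simp only [biUnion_insert, prod_insert ha]
    refine (h a).mul ih ?_ (hN a) fun i hi => ?_
    · exact (disjoint_biUnion_right _ _ _).2 fun j hj => hd a j fun e => ha (e ▸ hj)
    · obtain ⟨j, -, hj⟩ := mem_biUnion.1 hi
      exact hN j i hj

theorem Good.transfer {A : Type} {N : ι → ℝ} {I₀ I : Finset ι} {Z Z' : ℝ} {F : (ι → ℝ) → ℝ}
    (h : Good N I₀ Z F) (hI : I₀ ⊆ I) (hZ : Z ≤ Z') (T : Finset A) (a : A → ℝ) (ψ : ι → A → ℝ)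
    (p : ι → ℝ) (M : ℝ) :
    |∑ x ∈ T, a x * F (fun i => ψ i x) - M * F p| ≤
      ∑ S ∈ I.powerset.filter (fun S => ∏ i ∈ S, N i ≤ Z'),
        |∑ x ∈ T, a x * ∏ i ∈ S, ψ i x - M * ∏ i ∈ S, p i| := by
  obtain ⟨c, c1, c2, c3⟩ := h
  have e : ∑ x ∈ T, a x * F (fun i => ψ i x) - M * F p = ∑ S ∈ I₀.powerset,
      c S * (∑ x ∈ T, a x * ∏ i ∈ S, ψ i x - M * ∏ i ∈ S, p i) := by
    simp only [c3, mul_sum, mul_sub, sum_sub_distrib]
    rw [sum_comm]
    congr 1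
    · exact sum_congr rfl fun S _ => sum_congr rfl fun x _ => by ring
    · exact sum_congr rfl fun S _ => by ring
  rw [e, ← sum_filter_of_ne (p := fun S => ∏ i ∈ S, N i ≤ Z') fun S hS h0 =>
    (c2 S (mem_powerset.1 hS) (left_ne_zero_of_mul h0)).trans hZ]
  refine (abs_sum_le_sum_abs _ _).trans ((sum_le_sum fun S _ => ?_).trans
    (sum_le_sum_of_subset_of_nonneg (filter_subset_filter _ (powerset_mono.2 hI))
      fun _ _ _ => abs_nonneg _))
  rw [abs_mul]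
  exact mul_le_of_le_one_left (abs_nonneg _) (c1 S)

/-- Truncated inclusion-exclusion. -/
def Bf (I : Finset ι) (k : ℕ) (x : ι → ℝ) : ℝ :=
  ∑ S ∈ I.powerset, (if S.card ≤ k then (-1 : ℝ) ^ S.card else 0) * ∏ i ∈ S, x i

/-- Elementary symmetric functions. -/
def Ef (I : Finset ι) (k : ℕ) (x : ι → ℝ) : ℝ :=
  ∑ S ∈ I.powerset, (if S.card = k then (1 : ℝ) else 0) * ∏ i ∈ S, x i

theorem prod_le {N : ι → ℝ} {I S : Finset ι} {w : ℝ} {k : ℕ} (hw : 1 ≤ w)
    (hN : ∀ i ∈ I, 0 ≤ N i ∧ N i ≤ w) (hS : S ⊆ I) (hk : S.card ≤ k) : ∏ i ∈ S, N i ≤ w ^ k := by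
  refine (prod_le_prod (fun i hi => (hN i (hS hi)).1) fun i hi => (hN i (hS hi)).2).trans ?_
  rw [prod_const]
  exact pow_le_pow_right₀ hw hk

theorem good_Bf {N : ι → ℝ} {I : Finset ι} {w : ℝ} (k : ℕ) (hw : 1 ≤ w)
    (hN : ∀ i ∈ I, 0 ≤ N i ∧ N i ≤ w) : Good N I (w ^ (k + 1)) (Bf I k) := by
  refine ⟨_, fun S => ?_, fun S hS h0 => prod_le hw hN hS ?_, fun x => rfl⟩
  · split_ifs <;> simp
  · by_contra h
    exact h0 (if_neg (by omega))

theorem good_Ef {N : ι → ℝ} {I : Finset ι} {w : ℝ} (k : ℕ) (hw : 1 ≤ w)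
    (hN : ∀ i ∈ I, 0 ≤ N i ∧ N i ≤ w) : Good N I (w ^ k) (Ef I k) := by
  refine ⟨_, fun S => ?_, fun S hS h0 => prod_le hw hN hS ?_, fun x => rfl⟩
  · split_ifs <;> simp
  · by_contra h
    exact h0 (if_neg (by omega))

theorem Ef_zero (I : Finset ι) (x : ι → ℝ) : Ef I 0 x = 1 := by
  rw [Ef, sum_eq_single ∅] <;> simp +contextual

theorem Bf_zero (I : Finset ι) (x : ι → ℝ) : Bf I 0 x = 1 := by
  rw [Bf, sum_eq_single ∅] <;> simp +contextual

theorem Bf_succ (I : Finset ι) (k : ℕ) (x : ι → ℝ) :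
    Bf I (k + 1) x = Bf I k x + (-1) ^ (k + 1) * Ef I (k + 1) x := by
  rw [Bf, Bf, Ef, mul_sum, ← sum_add_distrib]
  refine sum_congr rfl fun S _ => ?_
  rcases lt_trichotomy S.card (k + 1) with h | h | h
  · rw [if_pos h.le, if_pos (by omega), if_neg h.ne]; ring
  · rw [if_pos h.le, if_neg (by omega), if_pos h, h]; ring
  · rw [if_neg (by omega), if_neg (by omega), if_neg h.ne']; ring

theorem Ef_insert {I : Finset ι} {a : ι} (ha : a ∉ I) (k : ℕ) (x : ι → ℝ) :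
    Ef (insert a I) (k + 1) x = Ef I (k + 1) x + x a * Ef I k x := by
  rw [Ef, sum_powerset_insert ha, Ef, Ef, mul_sum]
  congr 1
  refine sum_congr rfl fun S hS => ?_
  have : a ∉ S := fun h => ha (mem_powerset.1 hS h)
  rw [prod_insert this, card_insert_of_notMem this]
  simp only [add_left_inj]
  ring

theorem Bf_insert {I : Finset ι} {a : ι} (ha : a ∉ I) (k : ℕ) (x : ι → ℝ) :
    Bf (insert a I) (k + 1) x = Bf I (k + 1) x - x a * Bf I k x := by
  rw [Bf, sum_powerset_insert ha, Bf, Bf, mul_sum, sub_eq_add_neg, ← sum_neg_distrib]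
  congr 1
  refine sum_congr rfl fun S hS => ?_
  have : a ∉ S := fun h => ha (mem_powerset.1 hS h)
  rw [prod_insert this, card_insert_of_notMem this]
  simp only [add_le_add_iff_right]
  split_ifs <;> ring

theorem bonf (I : Finset ι) (x : ι → ℝ) (hx : ∀ i ∈ I, 0 ≤ x i ∧ x i ≤ 1) (k : ℕ) :
    0 ≤ (-1) ^ k * (Bf I k x - ∏ i ∈ I, (1 - x i)) := by
  induction I using Finset.induction_on generalizing k with
  | empty => simp [Bf]
  | insert a I ha ih =>
    cases k with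
    | zero =>
      rw [Bf_zero, pow_zero, one_mul, sub_nonneg]
      exact prod_le_one (fun i hi => sub_nonneg.2 (hx i hi).2) fun i hi => by
        linarith [(hx i hi).1]
    | succ k =>
      have h := fun k => ih (fun i hi => hx i (mem_insert_of_mem hi)) k
      have := add_nonneg (h (k + 1)) (mul_nonneg (hx a (mem_insert_self a I)).1 (h k))
      rw [Bf_insert ha, prod_insert ha]
      refine this.trans (le_of_eq ?_)
      ring

theorem bonf_even (I : Finset ι) (x : ι → ℝ) (hx : ∀ i ∈ I, 0 ≤ x i ∧ x i ≤ 1) (k : ℕ) :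
    ∏ i ∈ I, (1 - x i) ≤ Bf I (2 * k) x ∧
      Bf I (2 * k) x ≤ ∏ i ∈ I, (1 - x i) + Ef I (2 * k + 1) x := by
  have h1 := bonf I x hx (2 * k)
  have h2 := bonf I x hx (2 * k + 1)
  have e : (-1 : ℝ) ^ (2 * k) = 1 := by rw [pow_mul]; simp
  have e' : (-1 : ℝ) ^ (2 * k + 1) = -1 := by rw [pow_succ, e]; simp
  rw [Bf_succ, e'] at h2
  rw [e] at h1
  constructor <;> linarith

theorem add_pow_ge {s t : ℝ} (hs : 0 ≤ s) (ht : 0 ≤ t) (k : ℕ) :
    s ^ (k + 1) + (k + 1) * s ^ k * t ≤ (s + t) ^ (k + 1) := by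
  induction k with
  | zero => simp
  | succ k ih =>
    have h1 : 0 ≤ ((k : ℝ) + 1) * s ^ k * t * t := by positivity
    have h2 := mul_le_mul_of_nonneg_right ih (add_nonneg hs ht)
    rw [pow_succ (s + t) (k + 1)]
    refine le_trans ?_ h2
    push_cast
    rw [pow_succ s (k + 1), pow_succ s k]
    nlinarith

theorem Ef_le (I : Finset ι) (x : ι → ℝ) (hx : ∀ i ∈ I, 0 ≤ x i) (k : ℕ) :
    Ef I k x ≤ (∑ i ∈ I, x i) ^ k / k.factorial := by
  induction I using Finset.induction_on generalizing k with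
  | empty => cases k <;> simp [Ef]
  | insert a I ha ih =>
    cases k with
    | zero => simp [Ef_zero]
    | succ k =>
      have hx' : ∀ i ∈ I, 0 ≤ x i := fun i hi => hx i (mem_insert_of_mem hi)
      have h0 := hx a (mem_insert_self a I)
      have hs : 0 ≤ ∑ i ∈ I, x i := sum_nonneg hx'
      rw [Ef_insert ha, sum_insert ha, add_comm (x a)]
      refine (add_le_add (ih hx' _) (mul_le_mul_of_nonneg_left (ih hx' k) h0)).trans ?_
      refine le_trans (le_of_eq ?_) (div_le_div_of_nonneg_right (add_pow_ge hs h0 k)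
        (Nat.cast_nonneg _))
      have : (k.factorial : ℝ) ≠ 0 := by positivity
      rw [Nat.factorial_succ]
      push_cast
      field_simp

theorem prod_sub_le (J : Finset ℕ) (V B e : ℕ → ℝ) (h0 : ∀ j, 0 ≤ V j) (h1 : ∀ j, V j ≤ B j)
    (h2 : ∀ j, B j ≤ V j + e j) :
    ∏ j ∈ J, B j ≤ ∏ j ∈ J, V j + ∑ j ∈ J, ∏ i ∈ J, if i = j then e i else B i := by
  induction J using Finset.induction_on with
  | empty => simp
  | insert a J ha ih =>
    have hB : ∀ j, 0 ≤ B j := fun j => (h0 j).trans (h1 j)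
    have e1 : (∏ i ∈ insert a J, if i = a then e i else B i) = e a * ∏ i ∈ J, B i := by
      rw [prod_insert ha, if_pos rfl]
      congr 1
      exact prod_congr rfl fun i hi => if_neg fun h : i = a => ha (h ▸ hi)
    have e2 : (∑ j ∈ J, ∏ i ∈ insert a J, if i = j then e i else B i) =
        B a * ∑ j ∈ J, ∏ i ∈ J, if i = j then e i else B i := by
      rw [mul_sum]
      exact sum_congr rfl fun j hj => by rw [prod_insert ha, if_neg fun h : a = j => ha (h ▸ hj)]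
    rw [sum_insert ha, e1, e2, prod_insert ha, prod_insert ha]
    have p1 : 0 ≤ ∏ i ∈ J, B i := prod_nonneg fun i _ => hB i
    have p2 : ∏ i ∈ J, V i ≤ ∏ i ∈ J, B i := prod_le_prod (fun i _ => h0 i) fun i _ => h1 i
    have a1 := mul_le_mul_of_nonneg_right (h2 a) p1
    have a2 := mul_le_mul_of_nonneg_left ih (h0 a)
    have a3 := mul_le_mul_of_nonneg_right (h1 a)
      (show 0 ≤ ∑ j ∈ J, ∏ i ∈ J, if i = j then e i else B i by linarith)
    nlinarith

theorem sum_exp (c : ℝ) (J : ℕ) : ∑ j ∈ range J, (1 / 2 : ℝ) ^ j * (c + 2 * j) =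
    2 * c + 4 - (1 / 2 : ℝ) ^ J * (2 * c + 4 * J + 4) := by
  induction J with
  | zero => simp
  | succ J ih => rw [sum_range_succ, ih]; push_cast; ring

theorem sum_half (J : ℕ) : ∑ j ∈ range J, (1 / 2 : ℝ) ^ (j + 1) = 1 - (1 / 2 : ℝ) ^ J := by
  induction J with
  | zero => simp
  | succ J ih => rw [sum_range_succ, ih]; ring

theorem exp_le_prod (I : Finset ι) (p : ι → ℝ) (hp : ∀ i ∈ I, 0 ≤ p i ∧ p i ≤ 1 / 2) :
    Real.exp (-2 * ∑ i ∈ I, p i) ≤ ∏ i ∈ I, (1 - p i) := by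
  rw [mul_sum, Real.exp_sum]
  refine prod_le_prod (fun i _ => (Real.exp_pos _).le) fun i hi => ?_
  obtain ⟨h0, h1⟩ := hp i hi
  have h2 := Real.add_one_le_exp (2 * p i)
  rw [neg_mul, Real.exp_neg, inv_le_comm₀ (Real.exp_pos _) (by linarith)]
  refine le_trans ?_ h2
  rw [inv_le_iff_one_le_mul₀ (by linarith)]
  nlinarith

theorem core {A : Type} (I : Finset ι) (N p : ι → ℝ) (T : Finset A) (a : A → ℝ) (ψ : ι → A → ℝ)
    (M Rem Z η : ℝ) (J : ℕ) (blk : ι → ℕ) (w : ℕ → ℝ) (k : ℕ → ℕ) (hη : 0 ≤ η) (hη1 : η ≤ 1)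
    (hblk : ∀ i ∈ I, blk i < J) (hw : ∀ j, 1 ≤ w j) (hN : ∀ i ∈ I, 0 ≤ N i ∧ N i ≤ w (blk i))
    (hZ : ∏ j ∈ range J, w j ^ (2 * k j + 1) ≤ Z) (hp : ∀ i ∈ I, 0 ≤ p i ∧ p i ≤ 1)
    (hE : ∀ j, Ef (I.filter fun i => blk i = j) (2 * k j + 1) p ≤
      η * (1 / 2) ^ (j + 1) * ∏ i ∈ I.filter (fun i => blk i = j), (1 - p i))
    (ha : ∀ x ∈ T, 0 ≤ a x) (hψ : ∀ i ∈ I, ∀ x ∈ T, 0 ≤ ψ i x ∧ ψ i x ≤ 1) (hM : 0 ≤ M)
    (hR : ∑ S ∈ I.powerset.filter (fun S => ∏ i ∈ S, N i ≤ Z),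
      |∑ x ∈ T, a x * ∏ i ∈ S, ψ i x - M * ∏ i ∈ S, p i| ≤ Rem) :
    |∑ x ∈ T, a x * ∏ i ∈ I, (1 - ψ i x) - M * ∏ i ∈ I, (1 - p i)| ≤
      3 * η * (M * ∏ i ∈ I, (1 - p i)) + (J + 1) * Rem := by
  set Ib : ℕ → Finset ι := fun j => I.filter fun i => blk i = j with hIb
  have hR0 : 0 ≤ Rem := (sum_nonneg fun _ _ => abs_nonneg _).trans hR
  have hmem : ∀ j, ∀ i ∈ Ib j, i ∈ I ∧ blk i = j := fun j i hi => mem_filter.1 hi
  have hfib : ∀ f : ι → ℝ, ∏ i ∈ I, f i = ∏ j ∈ range J, ∏ i ∈ Ib j, f i := fun f =>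
    (prod_fiberwise_of_maps_to (fun i hi => mem_range.2 (hblk i hi)) f).symm
  have hd : ∀ i j, i ≠ j → Disjoint (Ib i) (Ib j) := fun i j hij =>
    disjoint_left.2 fun x h1 h2 => hij ((hmem _ _ h1).2.symm.trans (hmem _ _ h2).2)
  have hNb : ∀ j, ∀ i ∈ Ib j, 0 ≤ N i ∧ N i ≤ w j := fun j i hi => by
    obtain ⟨h1, h2⟩ := hmem j i hi
    exact h2 ▸ hN i h1
  have hsub : (range J).biUnion Ib ⊆ I := biUnion_subset.2 fun j _ => filter_subset _ _
  have hG : ∀ F : ℕ → (ι → ℝ) → ℝ, (∀ j, Good N (Ib j) (w j ^ (2 * k j + 1)) (F j)) →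
      |∑ x ∈ T, a x * ∏ j ∈ range J, F j (fun i => ψ i x) - M * ∏ j ∈ range J, F j p| ≤ Rem :=
    fun F hF => ((Good.prod Ib _ F hF hd (fun j i hi => (hNb j i hi).1) (range J)).transfer
      hsub hZ T a ψ p M).trans hR
  have g1 := hG (fun j => Bf (Ib j) (2 * k j)) fun j => good_Bf _ (hw j) (hNb j)
  have g2 := fun j₀ => hG (fun j x => if j = j₀ then Ef (Ib j) (2 * k j + 1) x
      else Bf (Ib j) (2 * k j) x) fun j => by
    split_ifs
    · exact good_Ef _ (hw j) (hNb j)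
    · exact good_Bf _ (hw j) (hNb j)
  have hx : ∀ x ∈ T, ∀ j, ∀ i ∈ Ib j, 0 ≤ ψ i x ∧ ψ i x ≤ 1 := fun x hx j i hi =>
    hψ i (hmem j i hi).1 x hx
  have hp' : ∀ j, ∀ i ∈ Ib j, 0 ≤ p i ∧ p i ≤ 1 := fun j i hi => hp i (hmem j i hi).1
  have hV : ∀ y : ι → ℝ, (∀ j, ∀ i ∈ Ib j, 0 ≤ y i ∧ y i ≤ 1) → ∀ j, 0 ≤ ∏ i ∈ Ib j, (1 - y i) :=
    fun y hy j => prod_nonneg fun i hi => sub_nonneg.2 (hy j i hi).2
  have u1 : ∑ x ∈ T, a x * ∏ i ∈ I, (1 - ψ i x) ≤
      ∑ x ∈ T, a x * ∏ j ∈ range J, Bf (Ib j) (2 * k j) (fun i => ψ i x) :=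
    sum_le_sum fun x hxT => mul_le_mul_of_nonneg_left (by
      rw [hfib]
      exact prod_le_prod (fun j _ => hV _ (hx x hxT) j) fun j _ =>
        (bonf_even _ _ (hx x hxT j) _).1) (ha x hxT)
  have l1 : ∑ x ∈ T, a x * ∏ j ∈ range J, Bf (Ib j) (2 * k j) (fun i => ψ i x) ≤
      ∑ x ∈ T, a x * ∏ i ∈ I, (1 - ψ i x) + ∑ j₀ ∈ range J, ∑ x ∈ T, a x * ∏ j ∈ range J,
        if j = j₀ then Ef (Ib j) (2 * k j + 1) (fun i => ψ i x)
          else Bf (Ib j) (2 * k j) (fun i => ψ i x) := by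
    rw [sum_comm, ← sum_add_distrib]
    refine sum_le_sum fun x hxT => ?_
    rw [← mul_sum, ← mul_add, hfib]
    exact mul_le_mul_of_nonneg_left (prod_sub_le _ _ _ _ (hV _ (hx x hxT))
      (fun j => (bonf_even _ _ (hx x hxT j) _).1) fun j => (bonf_even _ _ (hx x hxT j) _).2)
      (ha x hxT)
  have hB0 : ∀ j, 0 ≤ Bf (Ib j) (2 * k j) p := fun j =>
    (hV p hp' j).trans (bonf_even _ _ (hp' j) _).1
  have hB : ∀ j, Bf (Ib j) (2 * k j) p ≤
      (∏ i ∈ Ib j, (1 - p i)) * Real.exp (η * (1 / 2) ^ (j + 1)) := fun j => by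
    have h1 := (bonf_even _ _ (hp' j) (k j)).2
    have h2 := mul_le_mul_of_nonneg_left (Real.add_one_le_exp (η * (1 / 2) ^ (j + 1)))
      (hV p hp' j)
    have h3 := hE j
    linarith
  have hV0 : 0 ≤ ∏ i ∈ I, (1 - p i) := prod_nonneg fun i hi => sub_nonneg.2 (hp i hi).2
  have hP : ∏ j ∈ range J, ((∏ i ∈ Ib j, (1 - p i)) * Real.exp (η * (1 / 2) ^ (j + 1))) ≤
      (∏ i ∈ I, (1 - p i)) * (1 + 2 * η) := by
    rw [prod_mul_distrib, ← hfib, ← Real.exp_sum, ← mul_sum, sum_half]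
    refine mul_le_mul_of_nonneg_left ?_ hV0
    have h1 : η * (1 - (1 / 2) ^ J) ≤ η := by
      have : 0 ≤ η * (1 / 2) ^ J := by positivity
      linarith
    have h2 := Real.abs_exp_sub_one_le (x := η) (by rwa [abs_of_nonneg hη])
    rw [abs_of_nonneg hη] at h2
    linarith [Real.exp_le_exp.2 h1, le_abs_self (Real.exp η - 1)]
  have u2 : ∏ j ∈ range J, Bf (Ib j) (2 * k j) p ≤ (∏ i ∈ I, (1 - p i)) * (1 + 2 * η) :=
    (prod_le_prod (fun j _ => hB0 j) fun j _ => hB j).trans hP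
  have l2 : ∏ i ∈ I, (1 - p i) ≤ ∏ j ∈ range J, Bf (Ib j) (2 * k j) p := by
    rw [hfib]
    exact prod_le_prod (fun j _ => hV p hp' j) fun j _ => (bonf_even _ _ (hp' j) _).1
  have l3 : ∀ j₀ ∈ range J, (∏ j ∈ range J, if j = j₀ then Ef (Ib j) (2 * k j + 1) p
      else Bf (Ib j) (2 * k j) p) ≤ η * (1 / 2) ^ (j₀ + 1) * ((∏ i ∈ I, (1 - p i)) * 3) := by
    intro j₀ hj₀
    have h0 : 0 ≤ η * (1 / 2) ^ (j₀ + 1) := by positivity
    have h1 : (∏ j ∈ range J, if j = j₀ then Ef (Ib j) (2 * k j + 1) p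
        else Bf (Ib j) (2 * k j) p) ≤ ∏ j ∈ range J, ((if j = j₀ then η * (1 / 2) ^ (j + 1) else 1) *
          ((∏ i ∈ Ib j, (1 - p i)) * Real.exp (η * (1 / 2) ^ (j + 1)))) := by
      refine prod_le_prod (fun j _ => ?_) fun j _ => ?_
      · split_ifs
        · have := bonf_even _ _ (hp' j) (k j)
          linarith [this.1, this.2]
        · exact hB0 j
      · split_ifs
        · refine (hE j).trans (mul_le_mul_of_nonneg_left (le_mul_of_one_le_right (hV p hp' j)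
            (Real.one_le_exp (by positivity))) (by positivity))
        · rw [one_mul]
          exact hB j
    rw [prod_mul_distrib, prod_ite_eq', if_pos hj₀] at h1
    refine h1.trans (mul_le_mul_of_nonneg_left (hP.trans ?_) h0)
    exact mul_le_mul_of_nonneg_left (by linarith) hV0
  have l4 : (∑ j₀ ∈ range J, ∑ x ∈ T, a x * ∏ j ∈ range J,
      if j = j₀ then Ef (Ib j) (2 * k j + 1) (fun i => ψ i x)
        else Bf (Ib j) (2 * k j) (fun i => ψ i x)) ≤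
      ∑ j₀ ∈ range J, (3 * η * (M * ∏ i ∈ I, (1 - p i)) * (1 / 2) ^ (j₀ + 1) + Rem) :=
    sum_le_sum fun j₀ hj₀ => by
      have h1 := (abs_le.1 (g2 j₀)).2
      have h2 := mul_le_mul_of_nonneg_left (l3 j₀ hj₀) hM
      linarith
  rw [sum_add_distrib, ← mul_sum, sum_half, sum_const, card_range, nsmul_eq_mul] at l4
  have h5 : 0 ≤ η * (M * ∏ i ∈ I, (1 - p i)) := by positivity
  have h6 : 0 ≤ η * (M * ∏ i ∈ I, (1 - p i)) * (1 / 2) ^ J := by positivity
  have h7 : 0 ≤ (J : ℝ) * Rem := by positivity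
  have h8 := mul_le_mul_of_nonneg_left u2 hM
  have h9 := mul_le_mul_of_nonneg_left l2 hM
  obtain ⟨g3, g4⟩ := abs_le.1 g1
  rw [abs_le]
  constructor <;> linarith

theorem exp_le_four_pow {m : ℝ} {n : ℕ} (h : 3 * m ≤ n) : Real.exp (4 * m) ≤ 4 ^ n := by
  have h1 : Real.exp (4 / 3) ≤ 4 := by
    have h2 : (4 / 3 : ℝ) ≤ Real.log 2 + Real.log 2 := by linarith [Real.log_two_gt_d9]
    refine (Real.exp_le_exp.2 h2).trans (le_of_eq ?_)
    rw [Real.exp_add, Real.exp_log (by norm_num)]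
    norm_num
  calc Real.exp (4 * m) ≤ Real.exp (n * (4 / 3)) := Real.exp_le_exp.2 (by linarith)
    _ = Real.exp (4 / 3) ^ n := Real.exp_nat_mul _ _
    _ ≤ 4 ^ n := pow_le_pow_left₀ (Real.exp_pos _).le h1 _

/-- Fundamental lemma with level governed by the weighted mass `∑ p i * log (N i)`. -/
theorem FL2 {A : Type} (I : Finset ι) (N p : ι → ℝ) (z Λ : ℝ) (T : Finset A) (a : A → ℝ)
    (ψ : ι → A → ℝ) (M Rem : ℝ) (hz : 2 ≤ z)
    (hI : ∀ i ∈ I, 2 ≤ N i ∧ N i ≤ z ∧ 0 ≤ p i ∧ p i ≤ 1 / 2)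
    (hΛ : ∑ i ∈ I, p i * Real.log (N i) ≤ Λ)
    (ha : ∀ x ∈ T, 0 ≤ a x) (hψ : ∀ i ∈ I, ∀ x ∈ T, 0 ≤ ψ i x ∧ ψ i x ≤ 1) (hM : 0 ≤ M)
    (hR : ∑ S ∈ I.powerset.filter (fun S => ∏ i ∈ S, N i ≤ Real.exp (12 * Λ) * z ^ 22),
      |∑ x ∈ T, a x * ∏ i ∈ S, ψ i x - M * ∏ i ∈ S, p i| ≤ Rem) :
    |∑ x ∈ T, a x * ∏ i ∈ I, (1 - ψ i x) - M * ∏ i ∈ I, (1 - p i)| ≤
      3 / 32 * (M * ∏ i ∈ I, (1 - p i)) + 2 * z * Rem := by
  have hz0 : 0 < z := by linarith
  have hz1 : 1 < z := by linarith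
  set w : ℕ → ℝ := fun j => z ^ ((1 / 2 : ℝ) ^ j) with hwd
  have hw1 : ∀ j, 1 < w j := fun j => Real.one_lt_rpow hz1 (by positivity)
  have hlw : ∀ j, Real.log (w j) = (1 / 2 : ℝ) ^ j * Real.log z := fun j => by
    simp only [hwd]
    rw [Real.log_rpow hz0]
  set J := ⌊z⌋₊ with hJ
  have hJ2 : 2 ≤ J := Nat.le_floor (by exact_mod_cast hz)
  have hwJ : w J < 2 := by
    have h1 : z < (2 : ℝ) ^ (2 ^ J) := by
      refine (Nat.lt_floor_add_one z).trans_le ?_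
      have a1 : J < 2 ^ J := Nat.lt_two_pow_self
      have a2 : 2 ^ J < 2 ^ (2 ^ J) := Nat.lt_two_pow_self
      exact_mod_cast (show J + 1 ≤ 2 ^ (2 ^ J) by omega)
    refine (Real.rpow_lt_rpow hz0.le h1 (by positivity)).trans_le (le_of_eq ?_)
    rw [← Real.rpow_natCast, ← Real.rpow_mul (by norm_num)]
    push_cast
    rw [← mul_pow]
    norm_num
  set blk : ι → ℕ := fun i => sInf {j | w (j + 1) < N i} with hblk
  have hin : ∀ i ∈ I, J - 1 ∈ {j | w (j + 1) < N i} := fun i hi => by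
    show w (J - 1 + 1) < N i
    rw [Nat.sub_add_cancel (by omega)]
    linarith [(hI i hi).1]
  have hlo : ∀ i ∈ I, w (blk i + 1) < N i := fun i hi => Nat.sInf_mem ⟨_, hin i hi⟩
  have hhi : ∀ i ∈ I, N i ≤ w (blk i) := fun i hi => by
    rcases h : blk i with _ | j
    · simpa [hwd] using (hI i hi).2.1
    · exact not_lt.1 (Nat.notMem_of_lt_sInf (s := {j | w (j + 1) < N i})
        (show j < blk i by omega))
  have hbJ : ∀ i ∈ I, blk i < J := fun i hi => by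
    have : blk i ≤ J - 1 := Nat.sInf_le (hin i hi)
    omega
  have hR0 : 0 ≤ Rem := (sum_nonneg fun _ _ => abs_nonneg _).trans hR
  set m : ℕ → ℝ := fun j => ∑ i ∈ I.filter (fun i => blk i = j), p i with hm
  have hm0 : ∀ j, 0 ≤ m j := fun j => sum_nonneg fun i hi => (hI i (mem_filter.1 hi).1).2.2.1
  have hlz : 0 ≤ Real.log z := Real.log_nonneg hz1.le
  have key := core I N p T a ψ M Rem (Real.exp (12 * Λ) * z ^ 22) (1 / 32) J blk w
    (fun j => ⌈3 * m j⌉₊ + j + 3) (by norm_num) (by norm_num) hbJ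
    (fun j => (hw1 j).le) (fun i hi => ⟨by linarith [(hI i hi).1], hhi i hi⟩) ?_
    (fun i hi => ⟨(hI i hi).2.2.1, by linarith [(hI i hi).2.2.2]⟩) (fun j => ?_) ha hψ hM hR
  · refine key.trans (add_le_add (le_of_eq (by ring)) (mul_le_mul_of_nonneg_right ?_ hR0))
    linarith [Nat.floor_le hz0.le]
  · have e : ∀ j, w j ^ (2 * (⌈3 * m j⌉₊ + j + 3) + 1) ≤
        Real.exp (6 * (m j * Real.log (w j)) + (1 / 2 : ℝ) ^ j * (9 + 2 * j) * Real.log z) := by
      intro j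
      have h0 : 0 < w j := by linarith [hw1 j]
      have h1 : 0 ≤ Real.log (w j) := Real.log_nonneg (hw1 j).le
      rw [← Real.exp_log (pow_pos h0 _), Real.log_pow]
      refine Real.exp_le_exp.2 ?_
      have h2 := (Nat.ceil_lt_add_one (show 0 ≤ 3 * m j by linarith [hm0 j])).le
      have h3 : (1 / 2 : ℝ) ^ j * (9 + 2 * j) * Real.log z = (9 + 2 * j) * Real.log (w j) := by
        rw [hlw]; ring
      rw [h3]
      push_cast
      nlinarith
    refine (prod_le_prod (fun j _ => pow_nonneg (by linarith [hw1 j]) _) fun j _ => e j).trans ?_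
    rw [← Real.exp_sum, sum_add_distrib, ← mul_sum, ← sum_mul, sum_exp, Real.exp_add]
    have h1 : ∑ j ∈ range J, m j * Real.log (w j) ≤ 2 * Λ := by
      have h2 : ∑ j ∈ range J, m j * Real.log (w j) = ∑ i ∈ I, p i * Real.log (w (blk i)) := by
        rw [← sum_fiberwise_of_maps_to (fun i hi => mem_range.2 (hbJ i hi))]
        refine sum_congr rfl fun j _ => ?_
        simp only [hm]
        rw [sum_mul]
        exact sum_congr rfl fun i hi => by rw [(mem_filter.1 hi).2]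
      rw [h2]
      refine le_trans ?_ (mul_le_mul_of_nonneg_left hΛ (by norm_num))
      rw [mul_sum]
      refine sum_le_sum fun i hi => ?_
      have h3 : Real.log (w (blk i + 1)) ≤ Real.log (N i) :=
        Real.log_le_log (by linarith [hw1 (blk i + 1)]) (hlo i hi).le
      have h4 : Real.log (w (blk i)) = 2 * Real.log (w (blk i + 1)) := by
        rw [hlw, hlw]; ring
      have h5 := (hI i hi).2.2.1
      rw [h4]
      nlinarith
    refine mul_le_mul (Real.exp_le_exp.2 (by linarith)) ?_ (Real.exp_pos _).le (Real.exp_pos _).le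
    rw [← Real.exp_log (pow_pos hz0 22), Real.log_pow]
    refine Real.exp_le_exp.2 (mul_le_mul_of_nonneg_right ?_ hlz)
    have : 0 ≤ (1 / 2 : ℝ) ^ J * (2 * 9 + 4 * J + 4) := by positivity
    push_cast
    linarith
  · have hp : ∀ i ∈ I.filter (fun i => blk i = j), 0 ≤ p i ∧ p i ≤ 1 / 2 := fun i hi =>
      (hI i (mem_filter.1 hi).1).2.2
    have h3 : Real.exp (-2 * m j) ≤ ∏ i ∈ I.filter (fun i => blk i = j), (1 - p i) :=
      exp_le_prod _ p hp
    refine (Ef_le _ p (fun i hi => (hp i hi).1) _).trans (le_trans ?_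
      (mul_le_mul_of_nonneg_left h3 (by positivity)))
    set n := ⌈3 * m j⌉₊ with hn
    set K := 2 * (n + j + 3) + 1 with hK
    have h1 := Real.pow_div_factorial_le_exp (2 * m j) (by linarith [hm0 j]) K
    have h2 : Real.exp (4 * m j) ≤ 4 ^ n := exp_le_four_pow (Nat.le_ceil _)
    have e : (m j) ^ K / (K.factorial : ℝ) = (1 / 2) ^ K * ((2 * m j) ^ K / (K.factorial : ℝ)) := by
      rw [← mul_div_assoc, ← mul_pow]
      congr 2
      ring
    show (m j) ^ K / (K.factorial : ℝ) ≤ _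
    rw [e]
    refine (mul_le_mul_of_nonneg_left h1 (by positivity)).trans ?_
    have e2 : Real.exp (2 * m j) = Real.exp (4 * m j) * Real.exp (-2 * m j) := by
      rw [← Real.exp_add]; congr 1; ring
    rw [e2, ← mul_assoc]
    refine mul_le_mul_of_nonneg_right ?_ (Real.exp_pos _).le
    refine (mul_le_mul_of_nonneg_left h2 (by positivity)).trans ?_
    have e3 : (1 / 2 : ℝ) ^ K * 4 ^ n = (1 / 64) * ((1 / 2) ^ (j + 1) * (1 / 2) ^ j) := by
      have e4 : (1 / 2 : ℝ) ^ (2 * n) * 4 ^ n = 1 := by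
        rw [pow_mul, ← mul_pow]; norm_num
      have e5 : K = 2 * n + ((j + 1) + j + 6) := by omega
      rw [e5, pow_add, mul_right_comm, e4, one_mul, pow_add, pow_add]
      ring
    rw [e3]
    have h6 : (1 / 2 : ℝ) ^ j ≤ 1 := pow_le_one₀ (by norm_num) (by norm_num)
    have h7 : 0 ≤ (1 / 2 : ℝ) ^ (j + 1) := by positivity
    nlinarith

end Pool.Agent.Lib.PhiP
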