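import Pool.Agent.Lib.PhiP.Pat

/-! Three progressions share a common medium pattern; counting windows hit by large primes. -/

set_option autoImplicit false

open Finset
open scoped Classical

noncomputable section

namespace Pool.Agent.Lib.PhiP

theorem markov (Q : Finset ℕ) (H q T r : ℕ) (z Λ : ℝ) (hz : 2 ≤ z)
    (hQ : ∀ p ∈ Q, p.Prime ∧ 2 * H < p ∧ (p : ℝ) ≤ z ∧ ¬ p ∣ q)
    (hΛ : ∑ p ∈ Q, (H : ℝ) / p * Real.log p ≤ Λ) (hT : z ^ 3 ≤ T) :
    40 * (((range T).filter fun t => 40 * (Λ + 1) <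
      ∑ p : Q, (if pat H p (r + q * t) = 0 then 0 else Real.log (p : ℕ))).card : ℝ) ≤ T := by
  have hl : ∀ p : ℕ, 0 ≤ Real.log p := fun p => Real.log_natCast_nonneg p
  have hΛ0 : 0 ≤ Λ := (sum_nonneg fun p _ => mul_nonneg (by positivity) (hl p)).trans hΛ
  set F : ℕ → ℝ := fun t => ∑ p : Q, (if pat H p (r + q * t) = 0 then 0 else Real.log (p : ℕ))
    with hF
  have hF0 : ∀ t, 0 ≤ F t := fun t => sum_nonneg fun p _ => by
    split_ifs
    · rfl
    · exact hl _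
  have h1 : (((range T).filter fun t => 40 * (Λ + 1) < F t).card : ℝ) * (40 * (Λ + 1)) ≤
      ∑ t ∈ range T, F t := by
    refine le_trans ?_ (sum_le_sum_of_subset_of_nonneg
      (filter_subset (fun t => 40 * (Λ + 1) < F t) _) fun t _ _ => hF0 t)
    rw [← nsmul_eq_mul]
    exact card_nsmul_le_sum _ _ _ fun t ht => (mem_filter.1 ht).2.le
  have h2 : ∑ t ∈ range T, F t ≤ ∑ p ∈ Q, (T * ((H : ℝ) / p * Real.log p) + z * z) := by
    simp only [hF]
    rw [sum_comm, ← sum_coe_sort Q]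
    refine sum_le_sum fun p _ => ?_
    obtain ⟨a1, a2, a3, a4⟩ := hQ p p.2
    have h3 := per_sum (g := fun t => if pat H p (r + q * t) = 0 then (0 : ℝ) else 1) a1.pos
      (fun t => by
        rw [← pat_mod H p (r + q * (t + p)), ← pat_mod H p (r + q * t), mul_add, ← add_assoc,
          Nat.add_mul_mod_self_right])
      (fun t => by split_ifs <;> norm_num) T
    have h5 := lin_sum a1.pos (a1.coprime_iff_not_dvd.2 a4) r
      fun u => if pat H p u = 0 then (0 : ℝ) else 1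
    simp only [pat_mod] at h5
    rw [h5, sum_pat_ne (by omega)] at h3
    have e : ∑ t ∈ range T, (if pat H p (r + q * t) = 0 then 0 else Real.log (p : ℕ)) =
        (∑ t ∈ range T, if pat H p (r + q * t) = 0 then (0 : ℝ) else 1) * Real.log (p : ℕ) := by
      rw [sum_mul]
      exact sum_congr rfl fun t _ => by split_ifs <;> simp
    have h6 : Real.log (p : ℕ) ≤ z :=
      (Real.log_le_self (Nat.cast_nonneg _)).trans a3
    have h7 := mul_le_mul_of_nonneg_right (abs_le.1 h3).2 (hl p)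
    have h8 : ((p : ℕ) : ℝ) * Real.log (p : ℕ) ≤ z * z := mul_le_mul a3 h6 (hl p) (by linarith)
    rw [e]
    nlinarith
  have h3 : (Q.card : ℝ) ≤ z := by
    refine le_trans ?_ (Nat.floor_le (by linarith))
    have : Q.card ≤ (Icc 1 ⌊z⌋₊).card := card_le_card fun p hp =>
      mem_Icc.2 ⟨(hQ p hp).1.pos, Nat.le_floor (hQ p hp).2.2.1⟩
    simpa using this
  rw [sum_add_distrib, ← mul_sum, sum_const, nsmul_eq_mul] at h2
  have h4 : (Q.card : ℝ) * (z * z) ≤ T := by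
    refine le_trans ?_ hT
    have : 0 ≤ z * z := by positivity
    nlinarith
  have h5 := mul_le_mul_of_nonneg_left hΛ (Nat.cast_nonneg (α := ℝ) T)
  refine le_of_mul_le_mul_right ?_ (show 0 < Λ + 1 by linarith)
  nlinarith

theorem medium (Q : Finset ℕ) (H q T r : ℕ) (z Λ : ℝ) (hH : 1 ≤ H) (hz : 2 ≤ z)
    (hQ : ∀ p ∈ Q, p.Prime ∧ 2 * H < p ∧ (p : ℝ) ≤ z ∧ ¬ p ∣ q)
    (hΛ : ∑ p ∈ Q, (H : ℝ) / p * Real.log p ≤ Λ)
    (hT : 20 * z ^ 45 * Real.exp (2 * (40 * (Λ + 1)) + 26 * Λ) ≤ T)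
    (B : Finset ℕ) (hB : 40 * (B.card : ℝ) ≤ T) :
    2 / 3 < ∑ ω ∈ (range T \ B).image (fun t => fun p : Q => pat H p (r + q * t)),
      ∏ p : Q, wt H p (ω p) := by
  have hΛ0 : 0 ≤ Λ :=
    (sum_nonneg fun p _ => mul_nonneg (by positivity) (Real.log_natCast_nonneg p)).trans hΛ
  have hz3 : z ^ 3 ≤ 20 * z ^ 45 * Real.exp (2 * (40 * (Λ + 1)) + 26 * Λ) := by
    have h1 : z ^ 3 ≤ z ^ 45 := pow_le_pow_right₀ (by linarith) (by norm_num)
    have h2 : 1 ≤ Real.exp (2 * (40 * (Λ + 1)) + 26 * Λ) := Real.one_le_exp (by linarith)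
    have h3 : 0 ≤ z ^ 45 := by positivity
    nlinarith
  have hT0 : (0 : ℝ) < T := lt_of_lt_of_le (by positivity) (hz3.trans hT)
  have hm := markov Q H q T r z Λ hz hQ hΛ (hz3.trans hT)
  set f : ℕ → Q → ℕ := fun t p => pat H p (r + q * t) with hf
  set A := (range T).filter fun t => 40 * (Λ + 1) <
      ∑ p : Q, (if pat H p (r + q * t) = 0 then 0 else Real.log (p : ℕ)) with hA
  set W := (range T \ B) \ A with hW
  have c1 : (T : ℝ) ≤ W.card + B.card + A.card := by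
    have h1 := le_card_sdiff B (range T)
    have h2 := le_card_sdiff A (range T \ B)
    rw [card_range] at h1
    exact_mod_cast (show T ≤ W.card + B.card + A.card by rw [hW]; omega)
  have hw0 : ∀ ω : Q → ℕ, 0 ≤ ∏ p : Q, wt H p (ω p) := fun ω => prod_nonneg fun p _ =>
    wt_nonneg (by have := (hQ p p.2).2.1; omega) _
  have c2 : (W.card : ℝ) ≤ ∑ ω ∈ W.image f, 6 / 5 * (T * ∏ p : Q, wt H p (ω p)) := by
    rw [card_eq_sum_card_image f W]
    push_cast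
    refine sum_le_sum fun ω hω => ?_
    obtain ⟨t, ht, rfl⟩ := mem_image.1 hω
    refine le_trans ?_ (upper Q H q T r z Λ _ hH hz hQ hΛ hT (f t) (fun p => pat_le _ _ _) ?_)
    · exact Nat.cast_le.2 (card_le_card (filter_subset_filter _
        (sdiff_subset.trans sdiff_subset)))
    · have h1 := mem_sdiff.1 ht
      by_contra h
      exact h1.2 (mem_filter.2 ⟨(mem_sdiff.1 h1.1).1, not_le.1 h⟩)
  have c3 : ∑ ω ∈ W.image f, ∏ p : Q, wt H p (ω p) ≤
      ∑ ω ∈ (range T \ B).image f, ∏ p : Q, wt H p (ω p) :=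
    sum_le_sum_of_subset_of_nonneg (image_subset_image sdiff_subset) fun ω _ _ => hw0 ω
  rw [← mul_sum, ← mul_sum] at c2
  have c4 := mul_le_mul_of_nonneg_left c3 hT0.le
  refine lt_of_mul_lt_mul_left ?_ hT0.le
  linarith

theorem three (Q : Finset ℕ) (H q T : ℕ) (z Λ : ℝ) (hH : 1 ≤ H) (hz : 2 ≤ z)
    (hQ : ∀ p ∈ Q, p.Prime ∧ 2 * H < p ∧ (p : ℝ) ≤ z ∧ ¬ p ∣ q)
    (hΛ : ∑ p ∈ Q, (H : ℝ) / p * Real.log p ≤ Λ)
    (hT : 20 * z ^ 45 * Real.exp (2 * (40 * (Λ + 1)) + 26 * Λ) ≤ T)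
    (r : Fin 3 → ℕ) (B : Fin 3 → Finset ℕ) (hB : ∀ c, 40 * ((B c).card : ℝ) ≤ T) :
    ∃ t : Fin 3 → ℕ, (∀ c, t c < T ∧ t c ∉ B c) ∧
      ∀ c c', ∀ p ∈ Q, pat H p (r c + q * t c) = pat H p (r c' + q * t c') := by
  set S : Fin 3 → Finset (Q → ℕ) := fun c =>
    (range T \ B c).image (fun t => fun p : Q => pat H p (r c + q * t)) with hS
  set E : Finset (Q → ℕ) := Fintype.piFinset fun _ => range (H + 1) with hE
  set μ : (Q → ℕ) → ℝ := fun ω => ∏ p : Q, wt H p (ω p) with hμ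
  have hw0 : ∀ ω, 0 ≤ μ ω := fun ω => prod_nonneg fun p _ =>
    wt_nonneg (by have := (hQ p p.2).2.1; omega) _
  have h1 : ∑ ω ∈ E, μ ω = 1 := by
    rw [hE, hμ, ← prod_univ_sum (fun _ : Q => range (H + 1)) (fun p i => wt H p i)]
    exact prod_eq_one fun p _ => sum_wt _ _
  have hSE : ∀ c, S c ⊆ E := fun c ω hω => by
    obtain ⟨t, -, rfl⟩ := mem_image.1 hω
    exact Fintype.mem_piFinset.2 fun p => mem_range.2 (Nat.lt_succ_of_le (pat_le _ _ _))
  have h2 : ∀ c, 2 / 3 < ∑ ω ∈ E, (if ω ∈ S c then μ ω else 0) := fun c => by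
    rw [← sum_filter, filter_mem_eq_inter, inter_eq_right.2 (hSE c)]
    exact medium Q H q T (r c) z Λ hH hz hQ hΛ hT (B c) (hB c)
  obtain ⟨ω, hω⟩ : ∃ ω, ∀ c, ω ∈ S c := by
    by_contra h
    push Not at h
    have h3 : ∑ ω ∈ E, ∑ c, (if ω ∈ S c then μ ω else 0) ≤ ∑ ω ∈ E, 2 * μ ω := by
      refine sum_le_sum fun ω _ => ?_
      obtain ⟨c, hc⟩ := h ω
      have := hw0 ω
      rw [Fin.sum_univ_three]
      fin_cases c <;> simp only [Fin.zero_eta, Fin.mk_one, Fin.reduceFinMk] at hc <;>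
        rw [if_neg hc] <;> split_ifs <;> linarith
    rw [sum_comm, ← mul_sum, h1, Fin.sum_univ_three] at h3
    linarith [h2 0, h2 1, h2 2]
  choose t ht1 ht2 using fun c => mem_image.1 (hω c)
  refine ⟨t, fun c => ⟨mem_range.1 (mem_sdiff.1 (ht1 c)).1, (mem_sdiff.1 (ht1 c)).2⟩,
    fun c c' p hp => ?_⟩
  exact (congrFun (ht2 c) ⟨p, hp⟩).trans (congrFun (ht2 c') ⟨p, hp⟩).symm

theorem large (Lg : Finset ℕ) (H m b X : ℕ) (hm : H < m) :
    (((range X).filter fun N => N ≡ b [MOD m] ∧ ∃ p ∈ Lg, ∃ i ∈ Icc 1 H, p ∣ N + i).card : ℝ) ≤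
      (X + H) * ∑ p ∈ Lg, 1 / (p : ℝ) := by
  have h1 : ((range X).filter fun N => N ≡ b [MOD m] ∧ ∃ p ∈ Lg, ∃ i ∈ Icc 1 H, p ∣ N + i) ⊆
      Lg.biUnion fun p => (range X).filter fun N => N ≡ b [MOD m] ∧ ∃ i ∈ Icc 1 H, p ∣ N + i := by
    intro N hN
    obtain ⟨h1, h2, p, hp, h3⟩ := mem_filter.1 hN
    exact mem_biUnion.2 ⟨p, hp, mem_filter.2 ⟨h1, h2, h3⟩⟩
  refine (Nat.cast_le.2 ((card_le_card h1).trans card_biUnion_le)).trans ?_
  push_cast
  rw [mul_sum]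
  refine sum_le_sum fun p _ => ?_
  have h2 : ((range X).filter fun N => N ≡ b [MOD m] ∧ ∃ i ∈ Icc 1 H, p ∣ N + i).card ≤
      ((Ioc 0 (X + H)).filter fun n => p ∣ n).card := by
    refine card_le_card_of_forall_subsingleton (fun N n => N < n ∧ n ≤ N + H) (fun N hN => ?_)
      fun n _ N hN N' hN' => ?_
    · obtain ⟨h1, -, i, hi, h3⟩ := mem_filter.1 hN
      have := mem_range.1 h1
      have := mem_Icc.1 hi
      exact ⟨N + i, mem_filter.2 ⟨mem_Ioc.2 (by omega), h3⟩, by omega⟩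
    · obtain ⟨a1, a2⟩ := hN
      obtain ⟨a3, a4⟩ := hN'
      have e : N ≡ N' [MOD m] := (mem_filter.1 a1).2.1.trans (mem_filter.1 a3).2.1.symm
      rcases le_total N N' with h | h
      · have := Nat.eq_zero_of_dvd_of_lt ((Nat.modEq_iff_dvd' h).1 e) (by omega)
        omega
      · have := Nat.eq_zero_of_dvd_of_lt ((Nat.modEq_iff_dvd' h).1 e.symm) (by omega)
        omega
  rw [Nat.Ioc_filter_dvd_card_eq_div] at h2
  refine (Nat.cast_le.2 h2).trans (Nat.cast_div_le.trans (le_of_eq ?_))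
  push_cast
  ring

end Pool.Agent.Lib.PhiP
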