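import Pool.Agent.Lib.PhiP.Three

/-! Three windows with the same divisibility pattern outside one prime. -/

set_option autoImplicit false

open Finset
open scoped Classical

noncomputable section

namespace Pool.Agent.Lib.PhiP

theorem avg (Lg : Finset ℕ) (H m Q' T b : ℕ) (hm : H < m) (hQ' : 0 < Q') (r : ℕ → ℕ)
    (hr : ∀ a, r a < Q' * m ∧ r a ≡ a [MOD Q'] ∧ r a ≡ b [MOD m]) :
    ∑ a ∈ range Q', (((range T).filter fun t =>
      ∃ p ∈ Lg, ∃ i ∈ Icc 1 H, p ∣ r a + Q' * m * t + i).card : ℝ) ≤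
      ((Q' * m * T : ℕ) + H) * ∑ p ∈ Lg, 1 / (p : ℝ) := by
  refine le_trans ?_ (large Lg H m b (Q' * m * T) hm)
  rw [← Nat.cast_sum, ← card_sigma]
  refine Nat.cast_le.2 (card_le_card_of_injOn (fun x => r x.1 + Q' * m * x.2) (fun x hx => ?_)
    fun x hx y hy e => ?_)
  · obtain ⟨-, h2⟩ := mem_sigma.1 (mem_coe.1 hx)
    obtain ⟨h3, h4⟩ := mem_filter.1 h2
    refine mem_coe.2 (mem_filter.2 ⟨mem_range.2 ?_, ?_, h4⟩)
    · have h5 := Nat.mul_le_mul_left (Q' * m) (Nat.succ_le_of_lt (mem_range.1 h3))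
      have h6 := (hr x.1).1
      rw [Nat.mul_succ] at h5
      show r x.1 + Q' * m * x.2 < _
      omega
    · show r x.1 + Q' * m * x.2 ≡ b [MOD m]
      rw [mul_right_comm]
      exact (Nat.add_mul_mod_self_right _ _ _).trans (hr x.1).2.2
  · obtain ⟨a, t⟩ := x
    obtain ⟨a', t'⟩ := y
    have h1 := mem_range.1 (mem_sigma.1 (mem_coe.1 hx)).1
    have h2 := mem_range.1 (mem_sigma.1 (mem_coe.1 hy)).1
    have f : ∀ a t, r a + Q' * m * t ≡ a [MOD Q'] := fun a t => by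
      rw [mul_assoc]
      exact (Nat.add_mul_mod_self_left _ _ _).trans (hr a).2.1
    have e' : r a + Q' * m * t = r a' + Q' * m * t' := e
    have h3 : a = a' := Nat.ModEq.eq_of_lt_of_lt ((f a t).symm.trans (e' ▸ f a' t')) h1 h2
    subst h3
    have h4 : t = t' := Nat.eq_of_mul_eq_mul_left (Nat.mul_pos hQ' (by omega))
      (Nat.add_left_cancel e')
    rw [h4]

theorem small_le (P : Set ℕ) (hP : ∀ p ∈ P, p.Prime) (y L : ℕ)
    (htail : ∀ F : Finset ℕ, (∀ p ∈ F, p ∈ P ∧ y < p) → ∑ p ∈ F, Real.log p / p ≤ 1 / 10 ^ 6)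
    (hy : 2 * y ^ 2 + 2 * y ≤ L) :
    ∏ p ∈ (range (20 * L + 1)).filter (· ∈ P), p ≤ 2 ^ L := by
  set S := (range (20 * L + 1)).filter (· ∈ P) with hS
  have hpos : ∀ p ∈ S, (0 : ℝ) < p := fun p hp => by
    exact_mod_cast (hP p (mem_filter.1 hp).2).pos
  have h1 : ∑ p ∈ S.filter (· ≤ y), Real.log p ≤ (y + 1) * y := by
    refine (sum_le_card_nsmul _ _ (y : ℝ) fun p hp => ?_).trans ?_
    · exact (Real.log_le_self (Nat.cast_nonneg _)).trans (Nat.cast_le.2 (mem_filter.1 hp).2)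
    · rw [nsmul_eq_mul]
      refine mul_le_mul_of_nonneg_right ?_ (Nat.cast_nonneg _)
      have : (S.filter (· ≤ y)).card ≤ (range (y + 1)).card := card_le_card fun p hp =>
        mem_range.2 (Nat.lt_succ_of_le (mem_filter.1 hp).2)
      rw [card_range] at this
      exact_mod_cast this
  have h2 : ∑ p ∈ S.filter (fun p => ¬ p ≤ y), Real.log p ≤ 20 * L * (1 / 10 ^ 6) := by
    refine le_trans ?_ (mul_le_mul_of_nonneg_left (htail (S.filter fun p => ¬ p ≤ y) fun p hp =>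
      ⟨(mem_filter.1 (mem_filter.1 hp).1).2, not_le.1 (mem_filter.1 hp).2⟩) (by positivity))
    rw [mul_sum]
    refine sum_le_sum fun p hp => ?_
    have h3 := hpos p (mem_filter.1 hp).1
    have h4 : (p : ℝ) ≤ 20 * L := by
      exact_mod_cast Nat.lt_succ_iff.1 (mem_range.1 (mem_filter.1 (mem_filter.1 hp).1).1)
    rw [← mul_div_assoc, le_div_iff₀ h3, mul_comm]
    exact mul_le_mul_of_nonneg_right h4 (Real.log_natCast_nonneg p)
  have h3 := sum_filter_add_sum_filter_not S (· ≤ y) fun p => Real.log p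
  have h4 : (2 : ℝ) * y ^ 2 + 2 * y ≤ L := by exact_mod_cast hy
  have h5 : Real.log (∏ p ∈ S, (p : ℝ)) ≤ Real.log (2 ^ L) := by
    rw [Real.log_prod fun p hp => (hpos p hp).ne', Real.log_pow]
    nlinarith [Real.log_two_gt_d9, (Nat.cast_nonneg L : (0 : ℝ) ≤ L)]
  have h6 := (Real.log_le_log_iff (prod_pos hpos) (by positivity)).1 h5
  rw [← Nat.cast_prod] at h6
  exact_mod_cast h6

theorem windows (P : Set ℕ) (hP : ∀ p ∈ P, p.Prime) (y L p₀ : ℕ)
    (htail : ∀ F : Finset ℕ, (∀ p ∈ F, p ∈ P ∧ y < p) → ∑ p ∈ F, Real.log p / p ≤ 1 / 10 ^ 6)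
    (hp₀ : p₀ ∈ P) (h1 : 10 * L < p₀) (h2 : p₀ ≤ 20 * L) (hL : 300 ≤ L)
    (hy : 2 * y ^ 2 + 2 * y ≤ L) (b : Fin 3 → ℕ) :
    ∃ N : Fin 3 → ℕ, (∀ c, N c < 2 ^ (2 * L) ∧ N c ≡ b c [MOD p₀]) ∧
      ∀ c c', ∀ i ∈ Icc 1 (10 * L), ∀ p ∈ P, p ≠ p₀ → p ∣ N c + i → p ∣ N c' + i := by
  set S := (range (20 * L + 1)).filter (· ∈ P) with hS
  set Q' := ∏ p ∈ S.erase p₀, p with hQ'
  have hp₀S : p₀ ∈ S := mem_filter.2 ⟨mem_range.2 (by omega), hp₀⟩
  have hq : Q' * p₀ = ∏ p ∈ S, p := prod_erase_mul _ _ hp₀S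
  have hqT : Q' * p₀ ≤ 2 ^ L := hq ▸ small_le P hP y L htail hy
  have hQ0 : 0 < Q' := prod_pos fun p hp => (hP p (mem_filter.1 (mem_of_mem_erase hp)).2).pos
  have co : Nat.Coprime Q' p₀ := Nat.Coprime.prod_left fun p hp =>
    (Nat.coprime_primes (hP p (mem_filter.1 (mem_of_mem_erase hp)).2) (hP p₀ hp₀)).2
      (ne_of_mem_erase hp)
  set r : Fin 3 → ℕ → ℕ := fun c a => Nat.chineseRemainder co a (b c) with hrd
  have hr : ∀ c a, r c a < Q' * p₀ ∧ r c a ≡ a [MOD Q'] ∧ r c a ≡ b c [MOD p₀] := fun c a =>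
    ⟨Nat.chineseRemainder_lt_mul co _ _ hQ0.ne' (by omega), (Nat.chineseRemainder co a (b c)).2⟩
  set X := Q' * p₀ * 2 ^ L with hX
  set z : ℝ := Real.exp (L * Real.log 2 / 100) with hz
  have hL' : (300 : ℝ) ≤ L := by exact_mod_cast hL
  have l2 := Real.log_two_gt_d9
  have hz2 : 2 ≤ z := by
    rw [hz, ← Real.log_le_iff_le_exp (by norm_num)]
    nlinarith
  set Md := (range (X + 10 * L + 1)).filter fun p => p ∈ P ∧ 20 * L < p ∧ (p : ℝ) ≤ z with hMd
  set Lg := (range (X + 10 * L + 1)).filter fun p => p ∈ P ∧ 20 * L < p ∧ z < (p : ℝ) with hLg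
  have hLs : ∑ p ∈ Lg, 1 / (p : ℝ) ≤ 1 / 10 ^ 6 / (L * Real.log 2 / 100) := by
    rw [le_div_iff₀ (by positivity), sum_mul]
    refine le_trans (sum_le_sum fun p hp => ?_) (htail Lg fun p hp =>
      ⟨(mem_filter.1 hp).2.1, by have := (mem_filter.1 hp).2.2.1; omega⟩)
    have h3 := (mem_filter.1 hp).2.2.2
    rw [one_div_mul_eq_div]
    refine div_le_div_of_nonneg_right ?_ (Nat.cast_nonneg _)
    rw [Real.le_log_iff_exp_le (by linarith)]
    exact h3.le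
  set B : ℕ → Fin 3 → Finset ℕ := fun a c => (range (2 ^ L)).filter fun t =>
    ∃ p ∈ Lg, ∃ i ∈ Icc 1 (10 * L), p ∣ r c a + Q' * p₀ * t + i with hB
  obtain ⟨a, -, ha⟩ : ∃ a ∈ range Q', ∑ c, ((B a c).card : ℝ) ≤ (2 ^ L : ℕ) / 40 := by
    refine exists_le_of_sum_le ⟨0, mem_range.2 hQ0⟩ ?_
    rw [sum_comm]
    refine (sum_le_sum fun c _ => (avg Lg (10 * L) p₀ Q' (2 ^ L) (b c) h1 hQ0 (r c) (hr c)).trans
      (mul_le_mul_of_nonneg_left hLs (by positivity))).trans ?_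
    simp only [sum_const, card_range, card_univ, Fintype.card_fin, nsmul_eq_mul]
    have h3 : 10 * L ≤ X := h1.le.trans (by
      rw [hX, mul_right_comm]
      exact Nat.le_mul_of_pos_left _ (by positivity))
    have h4 : X ≤ Q' * (20 * L) * 2 ^ L := by rw [hX]; gcongr
    have h5 : ((X : ℝ) + (10 * L : ℕ)) ≤ 2 * (Q' * (20 * L) * (2 ^ L : ℕ)) := by
      exact_mod_cast (show X + 10 * L ≤ 2 * (Q' * (20 * L) * 2 ^ L) by omega)
    have h6 : (20 * L : ℝ) * (1 / 10 ^ 6 / (L * Real.log 2 / 100)) ≤ 1 / 240 := by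
      rw [← mul_div_assoc, div_le_iff₀ (by positivity)]
      nlinarith
    have h7 := mul_le_mul_of_nonneg_right h5
      (show (0 : ℝ) ≤ 1 / 10 ^ 6 / (L * Real.log 2 / 100) by positivity)
    have h8 := mul_le_mul_of_nonneg_left h6 (show (0 : ℝ) ≤ Q' * (2 ^ L : ℕ) by positivity)
    rw [← hX]
    push_cast at h7 h8 ⊢
    nlinarith
  have key := three Md (10 * L) (Q' * p₀) (2 ^ L) z (10 * L * (1 / 10 ^ 6)) (by omega)
    hz2 (fun p hp => ?_) ?_ ?_ (fun c => r c a) (B a) fun c => ?_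
  rotate_left
  · obtain ⟨-, a1, a2, a3⟩ := mem_filter.1 hp
    refine ⟨hP p a1, by omega, a3, fun h => ?_⟩
    rw [hq, (hP p a1).prime.dvd_finsetProd_iff] at h
    obtain ⟨s, hs, h⟩ := h
    have := mem_range.1 (mem_filter.1 hs).1
    have := Nat.le_of_dvd (hP s (mem_filter.1 hs).2).pos h
    omega
  · refine le_trans (le_of_eq ?_) (mul_le_mul_of_nonneg_left (htail Md fun p hp =>
      ⟨(mem_filter.1 hp).2.1, by have := (mem_filter.1 hp).2.2.1; omega⟩) (by positivity))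
    rw [mul_sum]
    refine sum_congr rfl fun p _ => ?_
    push_cast
    ring
  · have e1 : ((2 ^ L : ℕ) : ℝ) = Real.exp (L * Real.log 2) := by
      rw [Real.exp_nat_mul, Real.exp_log (by norm_num)]
      simp
    have e2 : (20 : ℝ) ≤ Real.exp 19 := by linarith [Real.add_one_le_exp 19]
    rw [e1, hz, ← Real.exp_nat_mul]
    refine (mul_le_mul_of_nonneg_right (mul_le_mul_of_nonneg_right e2 (Real.exp_pos _).le)
      (Real.exp_pos _).le).trans ?_
    rw [← Real.exp_add, ← Real.exp_add, Real.exp_le_exp]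
    push_cast
    nlinarith
  · have := single_le_sum (f := fun c => ((B a c).card : ℝ)) (fun c _ => Nat.cast_nonneg _)
      (mem_univ c)
    linarith
  obtain ⟨t, ht1, ht2⟩ := key
  have hN : ∀ c, r c a + Q' * p₀ * t c < X := fun c => by
    have h5 := Nat.mul_le_mul_left (Q' * p₀) (Nat.succ_le_of_lt (ht1 c).1)
    have h6 := (hr c a).1
    rw [Nat.mul_succ] at h5
    omega
  refine ⟨fun c => r c a + Q' * p₀ * t c, fun c => ⟨(hN c).trans_le ?_, ?_⟩,
    fun c c' i hi p hp hne hd => ?_⟩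
  · rw [hX, two_mul, pow_add]
    exact Nat.mul_le_mul_right _ hqT
  · beta_reduce
    rw [mul_right_comm]
    exact (Nat.add_mul_mod_self_right _ _ _).trans (hr c a).2.2
  beta_reduce at hd ⊢
  have hi' := mem_Icc.1 hi
  have hpX : p ∈ range (X + 10 * L + 1) := by
    have := Nat.le_of_dvd (by omega) hd
    have := hN c
    exact mem_range.2 (by omega)
  by_cases c1 : p ≤ 20 * L
  · have h3 : p ∣ Q' := dvd_prod_of_mem _
      (mem_erase.2 ⟨hne, mem_filter.2 ⟨mem_range.2 (by omega), hp⟩⟩)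
    have f : ∀ c, r c a + Q' * p₀ * t c + i ≡ a + i [MOD p] := fun c => by
      refine Nat.ModEq.add_right _ (Nat.ModEq.of_dvd h3 ?_)
      rw [mul_assoc]
      exact (Nat.add_mul_mod_self_left _ _ _).trans (hr c a).2.1
    exact (((f c).trans (f c').symm).dvd_iff dvd_rfl).1 hd
  by_cases c2 : (p : ℝ) ≤ z
  · have h3 : p ∈ Md := mem_filter.2 ⟨hpX, hp, by omega, c2⟩
    rw [dvd_iff_pat (H := 10 * L) (by omega) hi'.1 hi'.2] at hd ⊢
    exact (ht2 c' c p h3).trans hd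
  · exact absurd (mem_filter.2 ⟨mem_range.2 (ht1 c).1, p,
      mem_filter.2 ⟨hpX, hp, by omega, not_le.1 c2⟩, i, hi, hd⟩) (ht1 c).2

end Pool.Agent.Lib.PhiP
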